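import Pool.Agent.Y777.AL.A

/-!
# The leading part at a large prime (helper777, after `Pool.Agent.Y760.ZG.Pt`)
-/

set_option autoImplicit false

namespace Pool.Agent.Y777.AL

open Filter Topology Pool.Agent.TH932.Abs Pool.Agent.TH932.Germs Pool.Agent.TH932.Chi
open Pool.Agent.TH796.AL Pool.Agent.Y760.ZG

variable {I : Type} [Fintype I] [DecidableEq I] {s : ℕ → I → ℕ} {x : I → ℝ}

section

variable {L : ℕ → ℝ} (hL : Tendsto L atTop atTop) (hs : Lim s x L)
include hL hs

open Classical in
omit [Fintype I] [DecidableEq I] in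
/-- **the leading part at a large prime** -/
lemma leadj (hx : ∀ i, x i = 0 ∨ 2 ≤ x i) (q : ℕ) (i : I) (u : List I) (N : ℕ) {y : ℝ}
    (hy : 1 ≤ y) (hyi : y ≤ x i) :
    rho (Gy s x q (i :: u) (pr q * N) y) - (if x i = y then
      ∑ m ∈ Finset.Ico 1 N, rho (lj s i (pr q * m) * Gj s u (pr q * m)) else 0) ∈
      SR L ((y + 1) * Real.log (pr q)) := by
  have hp := pr_prime q
  have hp0 : 0 < pr q := hp.pos
  have hlog : 0 < Real.log (pr q) := Real.log_pos (by exact_mod_cast hp.one_lt)
  set F : ℕ → HR := fun m => rho (lj s i m *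
    Gy s x q u m (y - padicValNat (pr q) m * x i)) with hF
  have e1 : rho (Gy s x q (i :: u) (pr q * N) y) =
      ∑ m ∈ (Finset.Ico 1 (pr q * N)).filter (fun m => ¬ pr q ∣ m), F m +
        ∑ m ∈ Finset.Ico 1 N, F (pr q * m) := by
    rw [Gy_cons, map_sum, ← Finset.sum_filter_add_sum_filter_not _ (fun m => pr q ∣ m), add_comm]
    congr 1
    have h1 : (Finset.Ico 1 (pr q * N)).filter (fun m => pr q ∣ m) =
        (Finset.Ico 1 N).image fun m => pr q * m := by
      ext m
      simp only [Finset.mem_filter, Finset.mem_Ico, Finset.mem_image]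
      constructor
      · rintro ⟨⟨h2, h3⟩, m', rfl⟩
        refine ⟨m', ⟨?_, lt_of_mul_lt_mul_left h3 (Nat.zero_le _)⟩, rfl⟩
        rcases Nat.eq_zero_or_pos m' with h | h
        · rw [h, mul_zero] at h2
          omega
        · exact h
      · rintro ⟨m', ⟨h2, h3⟩, rfl⟩
        exact ⟨⟨Nat.mul_pos hp0 h2, Nat.mul_lt_mul_of_pos_left h3 hp0⟩, dvd_mul_right _ _⟩
    rw [h1, Finset.sum_image]
    intro a _ b _ hab
    exact Nat.eq_of_mul_eq_mul_left hp0 hab
  have e2 : rho (Gy s x q (i :: u) (pr q * N) y) - (if x i = y then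
      ∑ m ∈ Finset.Ico 1 N, rho (lj s i (pr q * m) * Gj s u (pr q * m)) else 0) =
      ∑ m ∈ (Finset.Ico 1 (pr q * N)).filter (fun m => ¬ pr q ∣ m), F m +
        ∑ m ∈ Finset.Ico 1 N, (F (pr q * m) -
          if x i = y then rho (lj s i (pr q * m) * Gj s u (pr q * m)) else 0) := by
    rw [e1, Finset.sum_sub_distrib]
    split_ifs
    · ring
    · simp
  rw [e2]
  refine SR_add hL (SR_sum hL _ _ fun m hm => ?_) (SR_sum hL _ _ fun m hm => ?_)
  · rw [Finset.mem_filter, Finset.mem_Ico] at hm
    have hv : padicValNat (pr q) m = 0 := padicValNat.eq_zero_of_not_dvd hm.2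
    rw [hF]
    simp only
    rw [hv, Nat.cast_zero, zero_mul, sub_zero]
    by_cases hmp : m ≤ pr q
    · rw [Gy_small s hmp (by linarith only [hy]), mul_zero, map_zero]
      exact SR_zero _
    · push Not at hmp
      rw [map_mul]
      have h1 := SR_mul hL (SR_lj hL hs i hm.1.1) (SR_Gy hL hs hx q u m y)
      refine SR_anti hL ?_ h1
      have h2 : Real.log (pr q) ≤ Real.log m :=
        Real.log_le_log (by exact_mod_cast hp0) (by exact_mod_cast hmp.le)
      nlinarith only [h2, hyi, hy, hlog]
  · rw [Finset.mem_Ico] at hm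
    have hpm : 1 ≤ pr q * m := Nat.mul_pos hp0 hm.1
    haveI : Fact (pr q).Prime := ⟨hp⟩
    have hv : padicValNat (pr q) (pr q * m) = 1 + padicValNat (pr q) m := by
      rw [padicValNat.mul (by omega) (by omega), padicValNat_self]
    have hlg := SR_lj hL hs i hpm
    have hlogm : Real.log (pr q * m : ℕ) = Real.log (pr q) + Real.log m := by
      push_cast
      rw [Real.log_mul (by exact_mod_cast hp0.ne') (by exact_mod_cast (by omega : m ≠ 0))]
    rw [hlogm] at hlg
    have hm0 : 0 ≤ Real.log m := Real.log_nonneg (by exact_mod_cast hm.1)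
    rw [hF]
    simp only
    rw [hv]
    rcases Nat.eq_zero_or_pos (padicValNat (pr q) m) with h0 | h0
    · rw [h0]
      split_ifs with h1
      · rw [h1, show y - ((1 + 0 : ℕ) : ℝ) * y = 0 by push_cast; ring, ← map_sub, ← mul_sub,
          map_mul, ← neg_sub, map_neg, mul_neg]
        refine SR_neg ?_
        have h2 := SR_mul hL hlg (SR_Gj_sub hL hs hx q u (pr q * m))
        refine SR_anti hL ?_ h2
        rw [h1]
        nlinarith only [hm0, hy, hlog]
      · have h2 : y - ((1 + 0 : ℕ) : ℝ) * x i < 0 := by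
          push_cast
          have := lt_of_le_of_ne hyi (Ne.symm h1)
          linarith only [this]
        rw [Gy_neg s hx h2, mul_zero, map_zero, sub_zero]
        exact SR_zero _
    · have h2 : y - ((1 + padicValNat (pr q) m : ℕ) : ℝ) * x i < 0 := by
        have h3 : (2 : ℝ) ≤ ((1 + padicValNat (pr q) m : ℕ) : ℝ) := by exact_mod_cast (by omega)
        nlinarith only [h3, hyi, hy]
      rw [Gy_neg s hx h2, mul_zero, map_zero, zero_sub]
      refine SR_neg ?_
      split_ifs with h1
      · rw [map_mul]
        have h3 := SR_mul hL hlg (SR_Gj hL hs hx u (pr q * m))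
        refine SR_anti hL ?_ h3
        have h4 : Real.log (pr q) ≤ Real.log m := by
          refine Real.log_le_log (by exact_mod_cast hp0) ?_
          have h5 : pr q ∣ m := dvd_of_one_le_padicValNat h0
          exact_mod_cast Nat.le_of_dvd (by omega) h5
        rw [h1]
        nlinarith only [h4, hy, hlog]
      · exact SR_zero _

end

/-- the words that begin with the letter `i` -/
def hdj (i : I) (w : List I) : Prop := w.head? = some i

instance (i : I) (w : List I) : Decidable (hdj i w) := by
  unfold hdj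
  infer_instance

omit [Fintype I] [DecidableEq I] in
lemma hdj_cons (i j : I) (u : List I) : hdj i (j :: u) ↔ j = i := by
  unfold hdj
  simp

omit [Fintype I] [DecidableEq I] in
lemma hdj_eq {i : I} {w : List I} (h : hdj i w) : w = i :: w.tail := by
  unfold hdj at h
  cases w with
  | nil => simp at h
  | cons a u =>
    rw [List.head?_cons, Option.some.injEq] at h
    rw [h, List.tail_cons]

section

variable {L : ℕ → ℝ} {hL : Tendsto L atTop atTop} {F : IntermediateField ℚ ℝ}

open Classical in
/-- **the leading part of a small sum at a large prime** -/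
lemma leadj_sum (hF : FiniteDimensional ℚ F) (hs : Lim s x L) (hx : ∀ i, x i = 0 ∨ 2 ≤ x i)
    {W : Type} [Fintype W] (w : W → List I) (c : W → HR) {m0 : ℕ}
    (hm0 : ∀ m', m0 ≤ m' → ∀ v, NQ hL F m' m' (c v)) {K : ℝ} (hK : ∀ v, c v ∈ SR L (-K))
    {y : ℝ} (hy : 1 ≤ y) (hw : ∀ v, c v ≠ 0 → w v = [] ∨ ∃ i u, w v = i :: u ∧ y ≤ x i)
    {q : ℕ} (hq : m0 ≤ q) {N : ℕ} (hN : 1 ≤ N)
    (h : ∑ v, c v * rho (Gj s (w v) (pr q * N)) ∈ SR L ((y + 1) * Real.log (pr q) - K)) :
    ∑ i ∈ Finset.univ.filter (fun i => x i = y), rho (ug s q i / ch1 hL q (-y)) *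
      ∑ v ∈ Finset.univ.filter (fun v => hdj i (w v)), c v *
        ∑ m ∈ Finset.Ico 1 N, rho (lj s i m * Gj s (w v).tail (pr q * m)) ∈
      SR L (Real.log (pr q) - K) := by
  have hp := pr_prime q
  have hp0 : 0 < pr q := hp.pos
  have hlog : 0 < Real.log (pr q) := Real.log_pos (by exact_mod_cast hp.one_lt)
  have hqN : q < pr q * N := by
    have h1 := pr_ge q
    have h2 : pr q * 1 ≤ pr q * N := Nat.mul_le_mul_left _ hN
    omega
  have h1 := partj hF hs w c (q := q) (M := pr q * N) (N := pr q * N) hqN (by omega)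
    (fun v => (hm0 q hq v).mono hqN.le) h y
  have h2 : ∑ v, c v * rho (Gy s x q (w v) (pr q * N) y) -
      ∑ i ∈ Finset.univ.filter (fun i => x i = y),
        ∑ v ∈ Finset.univ.filter (fun v => hdj i (w v)), c v *
          ∑ m ∈ Finset.Ico 1 N, rho (lj s i (pr q * m) * Gj s (w v).tail (pr q * m)) ∈
      SR L ((y + 1) * Real.log (pr q) - K) := by
    have e1 : ∑ i ∈ Finset.univ.filter (fun i => x i = y),
        ∑ v ∈ Finset.univ.filter (fun v => hdj i (w v)), c v *
          ∑ m ∈ Finset.Ico 1 N, rho (lj s i (pr q * m) * Gj s (w v).tail (pr q * m)) =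
        ∑ v, c v * ∑ i ∈ Finset.univ.filter (fun i => x i = y), if hdj i (w v) then
          ∑ m ∈ Finset.Ico 1 N, rho (lj s i (pr q * m) * Gj s (w v).tail (pr q * m))
          else 0 := by
      have e0 : ∀ v : W, c v * ∑ i ∈ Finset.univ.filter (fun i => x i = y), (if hdj i (w v) then
          ∑ m ∈ Finset.Ico 1 N, rho (lj s i (pr q * m) * Gj s (w v).tail (pr q * m))
          else 0) = ∑ i ∈ Finset.univ.filter (fun i => x i = y), if hdj i (w v) then
          c v * ∑ m ∈ Finset.Ico 1 N, rho (lj s i (pr q * m) * Gj s (w v).tail (pr q * m))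
          else 0 := by
        intro v
        rw [Finset.mul_sum]
        refine Finset.sum_congr rfl fun i _ => ?_
        split_ifs
        · rfl
        · rw [mul_zero]
      simp only [e0]
      rw [Finset.sum_comm]
      refine Finset.sum_congr rfl fun i _ => ?_
      rw [Finset.sum_filter]
    rw [e1, ← Finset.sum_sub_distrib]
    refine SR_sum hL _ _ fun v _ => ?_
    rw [← mul_sub]
    by_cases hcv : c v = 0
    · rw [hcv, zero_mul]
      exact SR_zero _
    · have h3 : rho (Gy s x q (w v) (pr q * N) y) -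
          (∑ i ∈ Finset.univ.filter (fun i => x i = y), if hdj i (w v) then
          ∑ m ∈ Finset.Ico 1 N, rho (lj s i (pr q * m) * Gj s (w v).tail (pr q * m))
          else 0) ∈ SR L ((y + 1) * Real.log (pr q)) := by
        rcases hw v hcv with h4 | ⟨j, u, h4, h5⟩
        · rw [h4, Gy_nil, if_neg (by linarith only [hy]), map_zero, zero_sub]
          refine SR_neg ?_
          rw [Finset.sum_eq_zero]
          · exact SR_zero _
          · intro i _
            rw [if_neg]
            unfold hdj
            simp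
        · rw [h4]
          have h6 : (∑ i ∈ Finset.univ.filter (fun i => x i = y),
              if hdj i (j :: u : List I) then
              ∑ m ∈ Finset.Ico 1 N, rho (lj s i (pr q * m) *
                Gj s (j :: u : List I).tail (pr q * m)) else 0) =
              if x j = y then ∑ m ∈ Finset.Ico 1 N, rho (lj s j (pr q * m) *
                Gj s u (pr q * m)) else 0 := by
            simp only [hdj_cons, List.tail_cons]
            rw [Finset.sum_filter]
            rw [Finset.sum_eq_single j]
            · simp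
            · intro i _ hij
              rw [if_neg (Ne.symm hij)]
              simp
            · intro h
              exact absurd (Finset.mem_univ j) h
          rw [h6]
          exact leadj hL hs hx q j u N hy h5
      have h4 := SR_mul hL (hK v) h3
      refine SR_anti hL (le_of_eq ?_) h4
      ring
  have h3 := SR_sub hL h1 h2
  rw [sub_sub_cancel] at h3
  have h4 : ∑ i ∈ Finset.univ.filter (fun i => x i = y), rho (ug s q i / ch1 hL q (-y)) *
      ∑ v ∈ Finset.univ.filter (fun v => hdj i (w v)), c v *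
        ∑ m ∈ Finset.Ico 1 N, rho (lj s i m * Gj s (w v).tail (pr q * m)) =
      (∑ i ∈ Finset.univ.filter (fun i => x i = y),
        ∑ v ∈ Finset.univ.filter (fun v => hdj i (w v)), c v *
          ∑ m ∈ Finset.Ico 1 N, rho (lj s i (pr q * m) * Gj s (w v).tail (pr q * m))) *
        rho (ch1 hL q (y)) := by
    rw [Finset.sum_mul]
    refine Finset.sum_congr rfl fun i _ => ?_
    rw [Finset.sum_mul, Finset.mul_sum]
    refine Finset.sum_congr rfl fun v _ => ?_
    have h5 : (ch1 hL q (-y))⁻¹ = ch1 hL q y := by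
      refine inv_eq_of_mul_eq_one_right ?_
      rw [← ch1_add, neg_add_cancel, ch1_zero]
    rw [div_eq_mul_inv, h5, map_mul, Finset.mul_sum, Finset.mul_sum, Finset.mul_sum,
      Finset.sum_mul]
    refine Finset.sum_congr rfl fun m _ => ?_
    rw [lj_mul, lj_ug]
    simp only [map_mul]
    ring
  rw [h4]
  have h5 := ch1_mem (hL := hL) q (-y)
  rw [neg_neg] at h5
  have h6 := SR_mul hL h3 h5
  refine SR_anti hL (le_of_eq ?_) h6
  ring

end

end Pool.Agent.Y777.AL
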