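import Pool.Agent.Y777.AL.B

/-!
# Tails and expansions with arbitrary letters (helper777, after `Pool.Agent.Y760.ZG.Mz`)
-/

set_option autoImplicit false

namespace Pool.Agent.Y777.AL

open Filter Topology Pool.Agent.TH932.Abs Pool.Agent.TH932.Germs Pool.Agent.TH932.Chi
open Pool.Agent.TH796.AL Pool.Agent.Y760.ZG

section

variable {I : Type} [Fintype I] [DecidableEq I] (s : ℕ → I → ℕ) (x : I → ℝ)

/-- the arguments of a word -/
def aj (n : ℕ) (w : List I) : List ℕ := w.map (s n)

omit [Fintype I] [DecidableEq I] in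
lemma aj_nil (n : ℕ) : aj s n [] = [] := rfl
omit [Fintype I] [DecidableEq I] in
lemma aj_cons (n : ℕ) (a : I) (w : List I) : aj s n (a :: w) = s n a :: aj s n w := rfl
omit [Fintype I] [DecidableEq I] in
lemma aj_length (n : ℕ) (w : List I) : (aj s n w).length = w.length := by
  unfold aj
  rw [List.length_map]

open Classical in
/-- the remainder -/
noncomputable def Rj (n : ℕ) : List I → ℕ → ℝ
  | [], _ => 0
  | a :: u, k => if x a = 0 then - tl (fun m => Rj n u m / (m : ℝ) ^ (s n a)) k
      else - tl (fun m => hr (aj s n u) m / (m : ℝ) ^ (s n a)) k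

omit [Fintype I] [DecidableEq I] in
lemma Rj_nil (n k : ℕ) : Rj s x n ([] : List I) k = 0 := by rw [Rj]
omit [Fintype I] [DecidableEq I] in
lemma Rj_large (n : ℕ) {a : I} (ha : x a ≠ 0) (u : List I) (k : ℕ) :
    Rj s x n (a :: u) k = - tl (fun m => hr (aj s n u) m / (m : ℝ) ^ (s n a)) k := by
  rw [Rj, if_neg ha]
omit [Fintype I] [DecidableEq I] in
lemma Rj_small (n : ℕ) {a : I} (ha : x a = 0) (u : List I) (k : ℕ) :
    Rj s x n (a :: u) k = - tl (fun m => Rj s x n u m / (m : ℝ) ^ (s n a)) k := by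
  rw [Rj, if_pos ha]

/-- the coefficients of the expansions -/
noncomputable def Xj (n : ℕ) : List I → ℝ
  | [] => 1
  | a :: u => - Rj s x n (a :: u) 1

omit [Fintype I] [DecidableEq I] in
lemma Xj_nil (n : ℕ) : Xj s x n ([] : List I) = 1 := rfl
omit [Fintype I] [DecidableEq I] in
lemma Xj_cons (n : ℕ) (a : I) (u : List I) : Xj s x n (a :: u) = - Rj s x n (a :: u) 1 := rfl

/-- the words that are empty or begin with a large letter -/
def Lj (w : List I) : Prop := w = [] ∨ ∃ i u, w = i :: u ∧ x i ≠ 0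

omit [Fintype I] [DecidableEq I] in
lemma Xj_mz (n : ℕ) {w : List I} (hw : Lj x w) : Xj s x n w = mz (aj s n w) := by
  rcases hw with rfl | ⟨i, u, rfl, hi⟩
  · rw [Xj_nil, aj_nil, mz]
  · rw [Xj_cons, Rj_large s x n hi, neg_neg, aj_cons, mz]
    rfl

open Classical in
/-- the splittings of a word with a small first part -/
noncomputable def spj : List I → List (List I × List I)
  | [] => [([], [])]
  | a :: u => if x a = 0 then ([], a :: u) :: (spj u).map fun p => (a :: p.1, p.2)
      else [([], a :: u)]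

omit [Fintype I] [DecidableEq I] in
lemma spj_nil : spj x ([] : List I) = [([], [])] := by rw [spj]
omit [Fintype I] [DecidableEq I] in
lemma spj_large {a : I} (ha : x a ≠ 0) (u : List I) : spj x (a :: u) = [([], a :: u)] := by
  rw [spj, if_neg ha]
omit [Fintype I] [DecidableEq I] in
lemma spj_small {a : I} (ha : x a = 0) (u : List I) :
    spj x (a :: u) = ([], a :: u) :: (spj x u).map fun p => (a :: p.1, p.2) := by
  rw [spj, if_pos ha]

omit [Fintype I] [DecidableEq I] in
lemma spj_Lj {w : List I} (hw : Lj x w) : spj x w = [([], w)] := by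
  rcases hw with rfl | ⟨i, u, rfl, hi⟩
  · rw [spj_nil]
  · rw [spj_large x hi]

omit [Fintype I] [DecidableEq I] in
/-- the first parts are small words -/
lemma spj_mem {w : List I} : ∀ p ∈ spj x w, ∀ a ∈ p.1, x a = 0 := by
  induction w with
  | nil =>
    intro p hp a ha
    rw [spj_nil, List.mem_singleton] at hp
    rw [hp] at ha
    simp at ha
  | cons b u ih =>
    intro p hp a ha
    by_cases hb : x b = 0
    · rw [spj_small x hb, List.mem_cons, List.mem_map] at hp
      rcases hp with rfl | ⟨p', hp', rfl⟩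
      · simp at ha
      · rcases List.mem_cons.1 ha with rfl | ha
        · exact hb
        · exact ih p' hp' a ha
    · rw [spj_large x hb, List.mem_singleton] at hp
      rw [hp] at ha
      simp at ha

omit [Fintype I] [DecidableEq I] in
lemma Rj_bd (n : ℕ) (w : List I) {σ : ℕ} (hσ : 2 * w.length ≤ σ)
    (hs : ∀ i, x i ≠ 0 → σ ≤ s n i) :
    ∀ k : ℕ, 1 ≤ k → |Rj s x n w k| ≤ ze 2 ^ w.length * (k : ℝ) ^ (2 * w.length) *
      ((k : ℝ) ^ σ)⁻¹ := by
  have hz := ze_ge_one (le_refl 2)
  have hz0 : 0 ≤ ze 2 := by linarith only [hz]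
  induction w with
  | nil =>
    intro k _
    rw [Rj_nil, abs_zero]
    positivity
  | cons a u ih =>
    intro k hk
    rw [List.length_cons] at hσ ⊢
    by_cases ha : x a = 0
    · rw [Rj_small s x n ha, abs_neg]
      have h1 := tail_bd (f := fun m => Rj s x n u m / (m : ℝ) ^ (s n a)) (C := ze 2 ^ u.length)
        (A := 2 * u.length) (σ := σ) (by positivity) (by omega) (fun m hm => by
          have hm1 : (1 : ℝ) ≤ m := by exact_mod_cast hm
          rw [abs_div, abs_of_nonneg (by positivity : (0 : ℝ) ≤ (m : ℝ) ^ (s n a))]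
          exact (div_le_self (abs_nonneg _) (one_le_pow₀ hm1)).trans (ih (by omega) m hm)) hk
      refine h1.trans (le_of_eq ?_)
      rw [pow_succ]
      ring
    · rw [Rj_large s x n ha, abs_neg]
      have h1 := tail_bd (f := fun m => hr (aj s n u) m / (m : ℝ) ^ (s n a)) (C := 1)
        (A := 2 * u.length) (σ := σ) zero_le_one (by omega) (fun m hm => by
          have hm1 : (1 : ℝ) ≤ m := by exact_mod_cast hm
          have h2 := hr_le (aj s n u) m hm
          rw [aj_length] at h2
          rw [abs_of_nonneg (div_nonneg (hr_nonneg _ _) (by positivity)), div_eq_mul_inv, one_mul]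
          refine mul_le_mul (h2.trans (pow_le_pow_right₀ hm1 (by omega)))
            (inv_anti₀ (by positivity) (pow_le_pow_right₀ hm1 (hs a ha))) (by positivity)
            (by positivity)) hk
      refine h1.trans ?_
      rw [one_mul]
      have h3 : ze 2 ≤ ze 2 ^ (u.length + 1) := by
        rw [pow_succ]
        exact le_mul_of_one_le_left hz0 (one_le_pow₀ hz)
      have h4 : 2 * u.length + 2 = 2 * (u.length + 1) := by ring
      rw [h4]
      gcongr

omit [Fintype I] [DecidableEq I] in
/-- **the expansion** -/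
lemma expandj (n : ℕ) (w : List I) {σ : ℕ} (hσ : 2 * w.length ≤ σ)
    (hs : ∀ i, x i ≠ 0 → σ ≤ s n i) :
    ∀ k : ℕ, 1 ≤ k → hr (aj s n w) k =
      ((spj x w).map fun p => hr (aj s n p.1) k * Xj s x n p.2).sum + Rj s x n w k := by
  have hz := ze_ge_one (le_refl 2)
  have hz0 : 0 ≤ ze 2 := by linarith only [hz]
  induction w with
  | nil =>
    intro k _
    rw [spj_nil, aj_nil, hr_nil, Rj_nil]
    simp [aj_nil, hr_nil, Xj_nil]
  | cons a u ih =>
    intro k hk
    rw [List.length_cons] at hσ
    by_cases ha : x a = 0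
    · rw [spj_small x ha, aj_cons, hr_cons]
      have h1 : Summable fun m => (fun m => Rj s x n u m / (m : ℝ) ^ (s n a)) (m + 1) :=
        tail_sum (f := fun m => Rj s x n u m / (m : ℝ) ^ (s n a)) (k := 1)
          (C := ze 2 ^ u.length) (A := 2 * u.length) (σ := σ) (by positivity) (by omega)
          (fun m hm => by
            have hm1 : (1 : ℝ) ≤ m := by exact_mod_cast hm
            rw [abs_div, abs_of_nonneg (by positivity : (0 : ℝ) ≤ (m : ℝ) ^ (s n a))]
            exact (div_le_self (abs_nonneg _) (one_le_pow₀ hm1)).trans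
              (Rj_bd s x n u (by omega) hs m hm)) le_rfl
      have h2 := tail_split (f := fun m => Rj s x n u m / (m : ℝ) ^ (s n a)) h1 hk
      have h3 : ∑ j ∈ Finset.Ico 1 k, hr (aj s n u) j / (j : ℝ) ^ (s n a) =
          ∑ j ∈ Finset.Ico 1 k, ((spj x u).map fun p =>
            hr (aj s n p.1) j * Xj s x n p.2).sum / (j : ℝ) ^ (s n a) +
          ∑ j ∈ Finset.Ico 1 k, Rj s x n u j / (j : ℝ) ^ (s n a) := by
        rw [← Finset.sum_add_distrib]
        refine Finset.sum_congr rfl fun j hj => ?_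
        rw [Finset.mem_Ico] at hj
        rw [ih (by omega) j hj.1, add_div]
      rw [h3, h2]
      have h4 : ∀ l : List (List I × List I),
          ∑ j ∈ Finset.Ico 1 k, (l.map fun p =>
            hr (aj s n p.1) j * Xj s x n p.2).sum / (j : ℝ) ^ (s n a) =
          ((l.map fun p => (a :: p.1, p.2)).map fun p =>
            hr (aj s n p.1) k * Xj s x n p.2).sum := by
        intro l
        induction l with
        | nil => simp
        | cons p l ihl =>
          simp only [List.map_cons, List.sum_cons] at ihl ⊢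
          rw [← ihl]
          simp only [add_div]
          rw [Finset.sum_add_distrib]
          congr 1
          show _ = hr (s n a :: aj s n p.1) k * Xj s x n p.2
          rw [hr_cons, Finset.sum_mul]
          refine Finset.sum_congr rfl fun j _ => ?_
          ring
      rw [h4, List.map_cons, List.sum_cons]
      show _ = hr [] k * Xj s x n (a :: u) + _ + _
      rw [hr_nil, one_mul, Xj_cons, Rj_small s x n ha, Rj_small s x n ha, neg_neg]
      ring
    · rw [spj_large x ha]
      rw [aj_cons]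
      have e2 : hr (s n a :: aj s n u) k =
        ∑ j ∈ Finset.Ico 1 k, hr (aj s n u) j / (j : ℝ) ^ (s n a) := hr_cons _ _ _
      rw [e2]
      have h1 : Summable fun m => (fun m => hr (aj s n u) m / (m : ℝ) ^ (s n a)) (m + 1) :=
        tail_sum (f := fun m => hr (aj s n u) m / (m : ℝ) ^ (s n a)) (k := 1) (C := 1)
          (A := 2 * u.length) (σ := σ) zero_le_one (by omega) (fun m hm => by
          have hm1 : (1 : ℝ) ≤ m := by exact_mod_cast hm
          have h2 := hr_le (aj s n u) m hm
          rw [aj_length] at h2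
          rw [abs_of_nonneg (div_nonneg (hr_nonneg _ _) (by positivity)), div_eq_mul_inv, one_mul]
          refine mul_le_mul (h2.trans (pow_le_pow_right₀ hm1 (by omega)))
            (inv_anti₀ (by positivity) (pow_le_pow_right₀ hm1 (hs a ha))) (by positivity)
            (by positivity)) le_rfl
      have h2 := tail_split (f := fun m => hr (aj s n u) m / (m : ℝ) ^ (s n a)) h1 hk
      rw [List.map_singleton, List.sum_singleton]
      show _ = hr [] k * Xj s x n (a :: u) + _
      rw [hr_nil, one_mul, Xj_cons, Rj_large s x n ha, Rj_large s x n ha, neg_neg,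
        ← sub_eq_add_neg]
      exact h2

end

/-! ### germs -/

section

variable {I : Type} [Fintype I] [DecidableEq I] (s : ℕ → I → ℕ) (x : I → ℝ)

/-- the remainder as a germ -/
noncomputable def Rgj (w : List I) (k : ℕ) : HR := gr fun n => Rj s x n w k

/-- the coefficients as germs -/
noncomputable def Xgj (w : List I) : HR := gr fun n => Xj s x n w

omit [Fintype I] [DecidableEq I] in
lemma rho_Gj (w : List I) : ∀ k, rho (Gj s w k) = gr fun n => hr (aj s n w) k := by
  induction w with
  | nil =>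
    intro k
    rw [Gj_nil, map_one, ← gr_one]
    rfl
  | cons a u ih =>
    intro k
    rw [Gj_cons, map_sum]
    have h1 : ∀ m ∈ Finset.Ico 1 k, rho (lj s a m * Gj s u m) =
        gr fun n => hr (aj s n u) m / (m : ℝ) ^ (s n a) := by
      intro m _
      rw [map_mul, ih m]
      unfold lj
      rw [rho_gm, gr_mul]
      congr 1
      funext n
      push_cast
      rw [div_eq_inv_mul]
    rw [Finset.sum_congr rfl h1, gr_sum]
    rfl

variable {s x} {L : ℕ → ℝ} (hL : Tendsto L atTop atTop)
  (hLs : ∀ i, x i ≠ 0 → ∀ᶠ n in (UU : Filter ℕ), L n ≤ (s n i : ℝ))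
include hL hLs

omit [DecidableEq I] in
lemma evj_sig (r : ℕ) : ∀ᶠ n in (UU : Filter ℕ), 2 * r ≤ ⌈L n⌉₊ ∧
    ∀ i, x i ≠ 0 → ⌈L n⌉₊ ≤ s n i := by
  have h1 : ∀ᶠ n in (UU : Filter ℕ), ∀ i, x i ≠ 0 → L n ≤ (s n i : ℝ) := by
    rw [Filter.eventually_all]
    intro i
    by_cases hi : x i = 0
    · exact Eventually.of_forall fun n h => absurd hi h
    · filter_upwards [hLs i hi] with n hn _
      exact hn
  filter_upwards [ev_of_atTop (hL.eventually_ge_atTop ((2 * r : ℕ) : ℝ)), h1] with n hn h2
  refine ⟨?_, fun i hi => Nat.ceil_le.2 (h2 i hi)⟩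
  exact_mod_cast hn.trans (Nat.le_ceil _)

omit [DecidableEq I] in
lemma SR_Rgj (w : List I) {k : ℕ} (hk : 1 ≤ k) : Rgj s x w k ∈ SR L (Real.log k) := by
  unfold Rgj
  rw [mem_SR]
  intro ε hε
  have h1 := SR_cst hL (ze 2 ^ w.length * (k : ℝ) ^ (2 * w.length))
  rw [cst_eq, mem_SR] at h1
  have hk1 : (1 : ℝ) ≤ k := by exact_mod_cast hk
  filter_upwards [h1 ε hε, evj_sig hL hLs w.length, L_nonneg hL] with n h2 h3 h4
  have h5 := Rj_bd s x n w h3.1 h3.2 k hk
  refine h5.trans ?_
  have h6 : ((k : ℝ) ^ ⌈L n⌉₊)⁻¹ ≤ Real.exp (-(Real.log k) * L n) := by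
    rw [show ((k : ℝ) ^ ⌈L n⌉₊)⁻¹ = Real.exp (-(Real.log k) * (⌈L n⌉₊ : ℝ)) by
      rw [neg_mul, Real.exp_neg, mul_comm (Real.log k), Real.exp_nat_mul,
        Real.exp_log (by linarith only [hk1])]]
    apply Real.exp_le_exp.2
    have h7 := Nat.le_ceil (L n)
    have h8 := Real.log_nonneg hk1
    nlinarith only [h7, h8]
  have h7 := (le_abs_self _).trans h2
  calc ze 2 ^ w.length * (k : ℝ) ^ (2 * w.length) * ((k : ℝ) ^ ⌈L n⌉₊)⁻¹ ≤
      Real.exp (-(0 - ε) * L n) * Real.exp (-(Real.log k) * L n) :=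
        mul_le_mul h7 h6 (by positivity) (by positivity)
    _ = Real.exp (-(Real.log k - ε) * L n) := by
      rw [← Real.exp_add]
      congr 1
      ring

omit [DecidableEq I] in
lemma SR_Xgj (w : List I) : Xgj s x w ∈ SR L 0 := by
  cases w with
  | nil =>
    have h1 : Xgj s x ([] : List I) = 1 := by
      unfold Xgj
      simp only [Xj_nil]
      exact gr_one
    rw [h1]
    exact (Un.one hL).2.1
  | cons a u =>
    have h1 : Xgj s x (a :: u) = - Rgj s x (a :: u) 1 := by
      unfold Xgj Rgj
      rw [gr_neg]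
      rfl
    rw [h1]
    refine SR_neg ?_
    have h2 := SR_Rgj hL hLs (a :: u) (le_refl 1)
    rwa [Nat.cast_one, Real.log_one] at h2

omit [DecidableEq I] in
lemma Gj_expand (w : List I) {k : ℕ} (hk : 1 ≤ k) :
    rho (Gj s w k) = ((spj x w).map fun p => rho (Gj s p.1 k) * Xgj s x p.2).sum +
      Rgj s x w k := by
  have h1 : ∀ l : List (List I × List I),
      (l.map fun p => rho (Gj s p.1 k) * Xgj s x p.2).sum =
        gr fun n => (l.map fun p => hr (aj s n p.1) k * Xj s x n p.2).sum := by
    intro l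
    induction l with
    | nil =>
      simp only [List.map_nil, List.sum_nil]
      exact gr_zero.symm
    | cons p l ih =>
      simp only [List.map_cons, List.sum_cons]
      rw [ih, rho_Gj]
      unfold Xgj
      rw [gr_mul, gr_add]
  rw [rho_Gj, h1]
  unfold Rgj
  rw [gr_add, gr_eq]
  filter_upwards [evj_sig hL hLs w.length] with n hn
  exact expandj s x n w hn.1 hn.2 k hk

omit [DecidableEq I] in
lemma Gj_Lj {w : List I} (hw : Lj x w) {k : ℕ} (hk : 1 ≤ k) :
    rho (Gj s w k) = Xgj s x w + Rgj s x w k := by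
  rw [Gj_expand hL hLs w hk, spj_Lj x hw, List.map_singleton, List.sum_singleton]
  show rho (Gj s [] k) * _ + _ = _
  rw [Gj_nil, map_one, one_mul]

lemma DD_Xgj {F : IntermediateField ℚ ℝ} (hs : Lim s x L) {w : List I}
    (hw : Lj x w) : DD hL F (Xgj s x w) := by
  intro E
  obtain ⟨k, hk⟩ := exists_nat_ge (Real.exp E)
  have hk0 : (0 : ℝ) < k := lt_of_lt_of_le (Real.exp_pos E) hk
  have hk1 : 1 ≤ k := by
    have : 0 < k := by exact_mod_cast hk0
    omega
  refine ⟨rho (Gj s w k), SF_Gj hs w k, ?_⟩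
  rw [Gj_Lj hL hLs hw hk1, sub_add_cancel_left]
  refine SR_neg (SR_anti hL ?_ (SR_Rgj hL hLs w hk1))
  rw [Real.le_log_iff_exp_le hk0]
  exact hk

omit [DecidableEq I] in
lemma trunc_sumj {W : Type} [Fintype W] {w : W → List I} (hw : ∀ v, Lj x (w v))
    {c : W → HR} {K : ℝ} (hK : ∀ v, c v ∈ SR L (-K)) (hn : Nul L (∑ v, c v * Xgj s x (w v)))
    {k : ℕ} (hk : 1 ≤ k) : ∑ v, c v * rho (Gj s (w v) k) ∈ SR L (Real.log k - K) := by
  have e1 : ∑ v, c v * rho (Gj s (w v) k) =
      ∑ v, c v * Xgj s x (w v) + ∑ v, c v * Rgj s x (w v) k := by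
    rw [← Finset.sum_add_distrib]
    refine Finset.sum_congr rfl fun v _ => ?_
    rw [Gj_Lj hL hLs (hw v) hk]
    ring
  rw [e1]
  refine SR_add hL (hn _) (SR_sum hL _ _ fun v _ => ?_)
  have h1 := SR_mul hL (hK v) (SR_Rgj hL hLs (w v) hk)
  refine SR_anti hL (le_of_eq ?_) h1
  ring

end

end Pool.Agent.Y777.AL
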