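import Pool.Agent.Y777.AL.C

/-!
# Elimination, and descent of coefficients (helper777)
-/

set_option autoImplicit false

namespace Pool.Agent.Y777.AL

open Filter Topology Pool.Agent.TH932.Abs Pool.Agent.TH932.Germs Pool.Agent.TH932.Chi
open Pool.Agent.TH796.AL Pool.Agent.Y760.ZG

/-- linear independence over the real germs of functions on the natural numbers `≥ q0` -/
def Ind {κ : Type} (q0 : ℕ) (S : Finset κ) (f : κ → ℕ → GG) : Prop :=
  ∀ μ : κ → HR, (∀ q, q0 ≤ q → ∑ k ∈ S, μ k * rho (f k q) = 0) → ∀ k ∈ S, μ k = 0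

lemma SR_KK {L : ℕ → ℝ} (hL : Tendsto L atTop atTop) {c : GG} (hc : c ∈ KK L hL) :
    rho c ∈ SR L 0 :=
  SR_KA hL ⊤ ⟨_, rho_mem_KA hL ⊤ ⟨_, hc⟩⟩

/-- **elimination** -/
lemma gauss {L : ℕ → ℝ} (hL : Tendsto L atTop atTop) {κ : Type} (q0 : ℕ) (δ : ℝ)
    (S : Finset κ) : ∀ f : κ → ℕ → GG, (∀ k ∈ S, ∀ q, f k q ∈ KK L hL) → Ind q0 S f →
      ∀ z : κ → HR, (∀ q, q0 ≤ q → ∑ k ∈ S, z k * rho (f k q) ∈ SR L δ) →
      ∀ k ∈ S, z k ∈ SR L δ := by
  classical
  induction S using Finset.induction_on with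
  | empty =>
    intro f _ _ z _ k hk
    exact absurd hk (Finset.notMem_empty k)
  | insert k1 S hk1 ih =>
    intro f hf hi z hz
    obtain ⟨q1, hq1, hne⟩ : ∃ q1, q0 ≤ q1 ∧ f k1 q1 ≠ 0 := by
      by_contra hcon
      push Not at hcon
      have h1 := hi (Pi.single k1 1) (fun q hq => by
        rw [Finset.sum_eq_single k1]
        · rw [hcon q hq, map_zero, mul_zero]
        · intro k _ hk
          rw [Pi.single_eq_of_ne hk, zero_mul]
        · intro h
          exact absurd (Finset.mem_insert_self k1 S) h) k1 (Finset.mem_insert_self k1 S)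
      rw [Pi.single_eq_same] at h1
      exact one_ne_zero h1
    have hk1f := hf k1 (Finset.mem_insert_self k1 S)
    have hrne : rho (f k1 q1) ≠ 0 := by
      rw [Ne, map_eq_zero]
      exact hne
    set g : κ → ℕ → GG := fun k q => f k q - f k q1 * (f k1 q1)⁻¹ * f k1 q with hg
    have hrg : ∀ k q, rho (g k q) = rho (f k q) -
        rho (f k q1) * (rho (f k1 q1))⁻¹ * rho (f k1 q) := by
      intro k q
      rw [hg]
      simp only [map_sub, map_mul, map_inv₀]
    have hS : ∀ k ∈ S, z k ∈ SR L δ := by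
      refine ih g (fun k hk q => ?_) ?_ z ?_
      · have h1 := hf k (Finset.mem_insert_of_mem hk)
        exact (KK L hL).sub_mem (h1 q) ((KK L hL).mul_mem ((KK L hL).mul_mem (h1 q1)
          ((KK L hL).inv_mem (hk1f q1))) (hk1f q))
      · intro μ hμ k hk
        set μ' : κ → HR := fun k => if k = k1 then
          - ∑ k ∈ S, μ k * (rho (f k q1) * (rho (f k1 q1))⁻¹) else μ k with hμ'
        have h1 := hi μ' (fun q hq => by
          rw [Finset.sum_insert hk1]
          have e1 : μ' k1 = - ∑ k ∈ S, μ k * (rho (f k q1) * (rho (f k1 q1))⁻¹) := if_pos rfl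
          have e2 : ∀ k ∈ S, μ' k * rho (f k q) = μ k * rho (f k q) := by
            intro k hk
            have : k ≠ k1 := fun h => hk1 (h ▸ hk)
            rw [hμ']
            simp only [if_neg this]
          rw [e1, Finset.sum_congr rfl e2, ← hμ q hq, neg_mul, Finset.sum_mul, neg_add_eq_sub,
            ← Finset.sum_sub_distrib]
          refine Finset.sum_congr rfl fun k _ => ?_
          rw [hrg]
          ring) k (Finset.mem_insert_of_mem hk)
        have : k ≠ k1 := fun h => hk1 (h ▸ hk)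
        rw [hμ'] at h1
        simp only [if_neg this] at h1
        exact h1
      · intro q hq
        have e1 : ∑ k ∈ S, z k * rho (g k q) = ∑ k ∈ insert k1 S, z k * rho (f k q) -
            (∑ k ∈ insert k1 S, z k * rho (f k q1)) * (rho (f k1 q1 )⁻¹ * rho (f k1 q)) := by
          rw [Finset.sum_insert hk1, Finset.sum_insert hk1, map_inv₀]
          have e2 : ∑ k ∈ S, z k * rho (g k q) = ∑ k ∈ S, z k * rho (f k q) -
              (∑ k ∈ S, z k * rho (f k q1)) * ((rho (f k1 q1))⁻¹ * rho (f k1 q)) := by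
            rw [Finset.sum_mul, ← Finset.sum_sub_distrib]
            refine Finset.sum_congr rfl fun k _ => ?_
            rw [hrg]
            ring
          rw [e2]
          field_simp
          ring
        rw [e1]
        refine SR_sub hL (hz q hq) ?_
        have h1 := SR_mul hL (hz q1 hq1) (SR_KK hL ((KK L hL).mul_mem ((KK L hL).inv_mem
          (hk1f q1)) (hk1f q)))
        rw [map_mul, add_zero] at h1
        exact h1
    intro k hk
    rw [Finset.mem_insert] at hk
    rcases hk with rfl | hk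
    · have h1 := SR_sub hL (hz q1 hq1) (SR_sum hL S (fun k' => z k' * rho (f k' q1))
        (fun k' hk' => by
          have h2 := SR_mul hL (hS k' hk') (SR_KK hL (hf k' (Finset.mem_insert_of_mem hk') q1))
          rwa [add_zero] at h2))
      rw [Finset.sum_insert hk1, add_sub_cancel_right] at h1
      have h2 := SR_mul hL h1 (SR_KK hL ((KK L hL).inv_mem (hk1f q1)))
      rw [add_zero, map_inv₀, mul_assoc, mul_inv_cancel₀ hrne, mul_one] at h2
      exact h2
    · exact hS k hk

/-- **descent of the coefficients** -/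
lemma descend (R : Subring HR) {κ ι : Type} (S : Finset κ) (P : ι → Prop) (f : κ → ι → HR)
    (hf : ∀ k ∈ S, ∀ q, P q → f k q ∈ R) (c : κ → HR)
    (hc : ∀ q, P q → ∑ k ∈ S, c k * f k q = 0) {k0 : κ} (hk0 : c k0 ≠ 0) :
    ∃ c' : κ → HR, (∀ k, c' k ∈ R) ∧ (k0 ∈ S → c' k0 ≠ 0) ∧
      ∀ q, P q → ∑ k ∈ S, c' k * f k q = 0 := by
  classical
  set E : Subfield HR := Subfield.closure (R : Set HR) with hE
  have hRE : ∀ r ∈ R, r ∈ E := fun r hr => Subfield.subset_closure hr
  obtain ⟨φ, hφ⟩ : ∃ φ : Module.Dual E HR, φ (c k0) ≠ 0 := by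
    by_contra hcon
    push Not at hcon
    exact hk0 ((Module.forall_dual_apply_eq_zero_iff E (c k0)).1 hcon)
  have hfrac : ∀ e : E, ∃ a b : HR, a ∈ R ∧ b ∈ R ∧ b ≠ 0 ∧ (e : HR) * b = a := by
    intro e
    have h1 : (e : HR) ∈ Subfield.closure (R : Set HR) := e.2
    rw [Subfield.mem_closure_iff] at h1
    obtain ⟨a, ha, b, hb, hab⟩ := h1
    rw [Subring.closure_eq] at ha hb
    by_cases hb0 : b = 0
    · refine ⟨0, 1, R.zero_mem, R.one_mem, one_ne_zero, ?_⟩
      rw [← hab, hb0, div_zero, zero_mul]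
    · refine ⟨a, b, ha, hb, hb0, ?_⟩
      rw [← hab, div_mul_cancel₀ _ hb0]
  choose a b ha hb hb0 hab using fun k => hfrac (φ (c k))
  refine ⟨fun k => if k ∈ S then a k * ∏ j ∈ S.erase k, b j else 0, fun k => ?_, fun hk => ?_,
    fun q hq => ?_⟩
  · simp only
    split_ifs with h
    · exact R.mul_mem (ha k) (R.prod_mem fun j _ => hb j)
    · exact R.zero_mem
  · simp only
    rw [if_pos hk]
    refine mul_ne_zero ?_ (Finset.prod_ne_zero_iff.2 fun j _ => hb0 j)
    rw [← hab k0]
    refine mul_ne_zero ?_ (hb0 k0)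
    intro h
    exact hφ (Subtype.ext h)
  · have h1 : ∑ k ∈ S, (φ (c k) : HR) * f k q = 0 := by
      have h2 := congrArg φ (hc q hq)
      rw [map_zero, map_sum] at h2
      have h3 := congrArg (fun e : E => (e : HR)) h2
      simp only [ZeroMemClass.coe_zero] at h3
      rw [← h3]
      rw [AddSubmonoidClass.coe_finsetSum]
      refine Finset.sum_congr rfl fun k hk => ?_
      have h4 : c k * f k q = (⟨f k q, hRE _ (hf k hk q hq)⟩ : E) • c k := by
        rw [Subfield.smul_def]
        show _ = f k q * c k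
        ring
      rw [h4, map_smul, smul_eq_mul]
      show (φ (c k) : HR) * f k q = f k q * (φ (c k) : HR)
      ring
    have h2 : ∑ k ∈ S, (if k ∈ S then a k * ∏ j ∈ S.erase k, b j else 0) * f k q =
        (∏ j ∈ S, b j) * ∑ k ∈ S, (φ (c k) : HR) * f k q := by
      rw [Finset.mul_sum]
      refine Finset.sum_congr rfl fun k hk => ?_
      rw [if_pos hk, ← hab k, ← Finset.mul_prod_erase S b hk]
      ring
    rw [h2, h1, mul_zero]

end Pool.Agent.Y777.AL
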