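import Pool.Agent.Y777.AL.D

/-!
# Multiple zeta values with a large first argument are linearly independent over finite sums of
characters, if products of powers and small sums are independent at the primes (helper777)
-/

set_option autoImplicit false

namespace Pool.Agent.Y777.AL

open Filter Topology Pool.Agent.TH932.Abs Pool.Agent.TH932.Germs Pool.Agent.TH932.Chi
open Pool.Agent.TH796.AL Pool.Agent.Y760.ZG

/-- independence at the primes of the products of the powers with exponents `D` and the truncated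
multiple sums with letters in `A` -/
def PIS {I J : Type} [Fintype J] (s : ℕ → I → ℕ) (D : ℕ → J → ℕ) (A : I → Prop) : Prop :=
  ∀ (q0 : ℕ) (Λ : Finset (List I)), (∀ β ∈ Λ, ∀ a ∈ β, A a) → ∀ c : J → List I → HR,
    (∀ q, q0 ≤ q → ∑ j, ∑ β ∈ Λ, c j β * rho (ug D q j * Gj s β (pr q)) = 0) →
    ∀ j, ∀ β ∈ Λ, c j β = 0

variable {I : Type} [Fintype I] [DecidableEq I]

/-- the coefficient of a small word in an expansion -/
noncomputable def Xbj (s : ℕ → I → ℕ) (x : I → ℝ) (t β : List I) : HR :=
  ((spj x t).map fun p => if p.1 = β then Xgj s x p.2 else 0).sum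

omit [Fintype I] in
lemma Xbj_sum (s : ℕ → I → ℕ) (x : I → ℝ) (Λ : Finset (List I)) (l : List (List I × List I))
    (hl : ∀ p ∈ l, p.1 ∈ Λ) (f : List I → HR) :
    (l.map fun p => f p.1 * Xgj s x p.2).sum =
      ∑ β ∈ Λ, f β * (l.map fun p => if p.1 = β then Xgj s x p.2 else 0).sum := by
  induction l with
  | nil => simp
  | cons p l ih =>
    simp only [List.map_cons, List.sum_cons]
    rw [ih fun p' hp' => hl p' (List.mem_cons_of_mem _ hp')]
    simp only [mul_add]
    rw [Finset.sum_add_distrib]
    congr 1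
    rw [Finset.sum_eq_single p.1]
    · rw [if_pos rfl]
    · intro β _ hβ
      rw [if_neg (Ne.symm hβ), mul_zero]
    · intro h
      exact absurd (hl p List.mem_cons_self) h

section

variable {L : ℕ → ℝ} {hL : Tendsto L atTop atTop} {F : IntermediateField ℚ ℝ}
  {s : ℕ → I → ℕ} {x : I → ℝ}

lemma lj_KK (hs : Lim s x L) {a : I} (ha : x a = 0) {m : ℕ} (hm : 1 ≤ m) :
    lj s a m ∈ KK L hL := by
  rw [lj_primes s a hm le_rfl]
  refine (KK L hL).prod_mem fun q _ => (KK L hL).pow_mem ?_ _
  have h1 := ug_const hL hs q a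
  rwa [ha, neg_zero, ch1_zero, div_one] at h1

lemma Gj_KK (hs : Lim s x L) {β : List I} (hβ : ∀ a ∈ β, x a = 0) :
    ∀ k : ℕ, Gj s β k ∈ KK L hL := by
  induction β with
  | nil =>
    intro k
    rw [Gj_nil]
    exact (KK L hL).one_mem
  | cons a β ih =>
    intro k
    rw [Gj_cons]
    refine (KK L hL).sum_mem fun m hm => ?_
    rw [Finset.mem_Ico] at hm
    exact (KK L hL).mul_mem (lj_KK hs (hβ a List.mem_cons_self) hm.1)
      (ih (fun b hb => hβ b (List.mem_cons_of_mem _ hb)) m)

open Classical in
/-- **the heads** -/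
lemma headsj (hF : FiniteDimensional ℚ F) (hs : Lim s x L) (hx : ∀ i, x i = 0 ∨ 2 ≤ x i)
    (hLs : ∀ i, x i ≠ 0 → ∀ᶠ n in (UU : Filter ℕ), L n ≤ (s n i : ℝ)) {W : Type}
    [Fintype W] (w : W → List I) (hst : ∀ v, Lj x (w v)) (c : W → HR)
    (hc : ∀ v, c v ∈ SF hL F) (hn : Nul L (∑ v, c v * Xgj s x (w v))) {y : ℝ} (hy : 2 ≤ y)
    (hA : PIS s (fun n (i : {i // x i = y}) => s n i.1) (fun a => x a = 0))
    (hw : ∀ v, c v ≠ 0 → w v = [] ∨ ∃ i u, w v = i :: u ∧ y ≤ x i) {i : I} (hi : x i = y)
    (β : List I) :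
    Nul L (∑ v ∈ Finset.univ.filter (fun v => hdj i (w v)), c v * Xbj s x (w v).tail β) := by
  set Λ : Finset (List I) := Finset.univ.biUnion fun v =>
    ((spj x (w v).tail).map Prod.fst).toFinset with hΛ
  have hΛm : ∀ v, ∀ p ∈ spj x (w v).tail, p.1 ∈ Λ := by
    intro v p hp
    rw [hΛ, Finset.mem_biUnion]
    refine ⟨v, Finset.mem_univ _, ?_⟩
    rw [List.mem_toFinset, List.mem_map]
    exact ⟨p, hp, rfl⟩
  have hΛs : ∀ β ∈ Λ, ∀ a ∈ β, x a = 0 := by
    intro β hβ a ha
    rw [hΛ, Finset.mem_biUnion] at hβ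
    obtain ⟨v, _, hβ⟩ := hβ
    rw [List.mem_toFinset, List.mem_map] at hβ
    obtain ⟨p, hp, rfl⟩ := hβ
    exact spj_mem x p hp a ha
  set Y : I → List I → HR := fun i β =>
    ∑ v ∈ Finset.univ.filter (fun v => hdj i (w v)), c v * Xbj s x (w v).tail β with hY
  by_cases hβ : β ∈ Λ
  swap
  · have h1 : ∀ v, Xbj s x (w v).tail β = 0 := by
      intro v
      unfold Xbj
      refine List.sum_eq_zero fun z hz => ?_
      obtain ⟨p, hp, rfl⟩ := List.mem_map.1 hz
      rw [if_neg]
      intro h
      exact hβ (h ▸ hΛm v p hp)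
    intro t
    have h2 : ∑ v ∈ Finset.univ.filter (fun v => hdj i (w v)), c v * Xbj s x (w v).tail β = 0 :=
      Finset.sum_eq_zero fun v _ => by rw [h1, mul_zero]
    rw [h2]
    exact SR_zero t
  have hlog2 : 0 < Real.log 2 := Real.log_pos (by norm_num)
  -- bounds for the coefficients
  choose c0 hc0 hc0' using fun v => SF_bdd (hc v)
  set K : ℝ := ∑ v, c0 v with hK
  have hcK : ∀ v, c v ∈ SR L (-K) := fun v =>
    SR_anti hL (neg_le_neg (Finset.single_le_sum (f := c0) (fun v _ => hc0 v)
      (Finset.mem_univ v))) (hc0' v)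
  obtain ⟨m0, hm0⟩ := SF_common hc
  have hXb : ∀ t β, Xbj s x t β ∈ SR L 0 := by
    intro t β
    unfold Xbj
    have h1 : ∀ l : List (List I × List I),
        (l.map fun p => if p.1 = β then Xgj s x p.2 else 0).sum ∈ SR L 0 := by
      intro l
      induction l with
      | nil => exact SR_zero 0
      | cons p l ih =>
        rw [List.map_cons, List.sum_cons]
        refine SR_add hL ?_ ih
        split_ifs
        · exact SR_Xgj hL hLs p.2
        · exact SR_zero 0
    exact h1 _
  -- the leading parts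
  have hmain : ∀ q, m0 ≤ q → ∑ i ∈ Finset.univ.filter (fun i => x i = y),
      rho (ug s q i / ch1 hL q (-y)) *
        ∑ m ∈ Finset.Ico 1 ((pr q) ^ (⌈y⌉₊)), rho (lj s i m) *
          ∑ β ∈ Λ, rho (Gj s β (pr q * m)) * Y i β ∈ SR L (Real.log (pr q) - K) := by
    intro q hq
    have hp := pr_prime q
    have hp0 : 0 < pr q := hp.pos
    have hp2 : 2 ≤ pr q := hp.two_le
    have hpr : (0 : ℝ) < pr q := by exact_mod_cast hp0
    have hlog : 0 < Real.log (pr q) := Real.log_pos (by exact_mod_cast hp.one_lt)
    set N : ℕ := (pr q) ^ (⌈y⌉₊) with hN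
    have hy1 : 1 ≤ ⌈y⌉₊ := Nat.one_le_ceil_iff.2 (by linarith only [hy])
    have hN2 : 2 ≤ N := hp2.trans (Nat.le_self_pow (by omega) _)
    have h1 := trunc_sumj hL hLs hst hcK hn (k := pr q * N) (Nat.mul_pos hp0 (by omega))
    have h2 := leadj_sum hF hs hx w c hm0 hcK (show 1 ≤ y by linarith only [hy]) hw hq
      (N := N) (by omega)
      (SR_anti hL (by
        have h3 : Real.log ((pr q * N : ℕ) : ℝ) = (1 + (⌈y⌉₊ : ℝ)) * Real.log (pr q) := by
          rw [hN]
          push_cast
          rw [Real.log_mul hpr.ne' (pow_pos hpr _).ne', Real.log_pow]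
          ring
        rw [h3]
        have h4 := Nat.le_ceil y
        nlinarith only [h4, hlog]) h1)
    have hu : ∀ i ∈ Finset.univ.filter (fun i => x i = y),
        rho (ug s q i / ch1 hL q (-y)) ∈ SR L 0 := by
      intro i hi
      have h3 := ug_const hL hs q i
      rw [(Finset.mem_filter.1 hi).2] at h3
      exact SR_KK hL h3
    have h4 : ∑ i ∈ Finset.univ.filter (fun i => x i = y), rho (ug s q i / ch1 hL q (-y)) *
        ∑ v ∈ Finset.univ.filter (fun v => hdj i (w v)), c v *
          ∑ m ∈ Finset.Ico 1 N, rho (lj s i m) * Rgj s x (w v).tail (pr q * m) ∈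
        SR L (Real.log (pr q) - K) := by
      refine SR_sum hL _ _ fun i hi => ?_
      have h5 : ∑ v ∈ Finset.univ.filter (fun v => hdj i (w v)), c v *
          ∑ m ∈ Finset.Ico 1 N, rho (lj s i m) * Rgj s x (w v).tail (pr q * m) ∈
          SR L (Real.log (pr q) - K) := by
        refine SR_sum hL _ _ fun v _ => ?_
        have h6 : ∑ m ∈ Finset.Ico 1 N, rho (lj s i m) * Rgj s x (w v).tail (pr q * m) ∈
            SR L (Real.log (pr q)) := by
          refine SR_sum hL _ _ fun m hm => ?_
          rw [Finset.mem_Ico] at hm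
          have h7 := SR_mul hL (SR_lj_zero hL hs hx i hm.1)
            (SR_Rgj hL hLs (w v).tail (k := pr q * m) (Nat.mul_pos hp0 hm.1))
          refine SR_anti hL ?_ h7
          rw [zero_add]
          refine Real.log_le_log hpr ?_
          exact_mod_cast Nat.le_mul_of_pos_right _ hm.1
        have h7 := SR_mul hL (hcK v) h6
        refine SR_anti hL (le_of_eq ?_) h7
        ring
      have h6 := SR_mul hL (hu i hi) h5
      rwa [zero_add] at h6
    have h5 := SR_sub hL h2 h4
    refine (congrArg (fun z => z ∈ SR L (Real.log (pr q) - K)) ?_).mp h5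
    rw [← Finset.sum_sub_distrib]
    refine Finset.sum_congr rfl fun i _ => ?_
    rw [← mul_sub]
    congr 1
    rw [← Finset.sum_sub_distrib]
    have e1 : ∀ v, c v * ∑ m ∈ Finset.Ico 1 N,
          rho (lj s i m * Gj s (w v).tail (pr q * m)) -
        c v * ∑ m ∈ Finset.Ico 1 N, rho (lj s i m) * Rgj s x (w v).tail (pr q * m) =
        ∑ m ∈ Finset.Ico 1 N, rho (lj s i m) *
          ∑ β ∈ Λ, rho (Gj s β (pr q * m)) * (c v * Xbj s x (w v).tail β) := by
      intro v
      rw [← mul_sub, ← Finset.sum_sub_distrib, Finset.mul_sum]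
      refine Finset.sum_congr rfl fun m hm => ?_
      rw [Finset.mem_Ico] at hm
      rw [map_mul, Gj_expand hL hLs (w v).tail (k := pr q * m) (Nat.mul_pos hp0 hm.1),
        Xbj_sum s x Λ (spj x (w v).tail) (hΛm v) (fun β => rho (Gj s β (pr q * m)))]
      rw [mul_add, add_sub_cancel_right, mul_left_comm]
      congr 1
      rw [Finset.mul_sum]
      refine Finset.sum_congr rfl fun β _ => ?_
      rw [mul_left_comm]
      rfl
    rw [Finset.sum_congr rfl fun v _ => e1 v, Finset.sum_comm]
    refine Finset.sum_congr rfl fun m _ => ?_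
    rw [← Finset.mul_sum]
    congr 1
    rw [Finset.sum_comm]
    refine Finset.sum_congr rfl fun β _ => ?_
    rw [← Finset.mul_sum]
  -- the bootstrap
  have hboot : ∀ k : ℕ, ∀ i, x i = y → ∀ β ∈ Λ, Y i β ∈ SR L (-K + k * Real.log 2) := by
    intro k
    induction k with
    | zero =>
      intro i _ β _
      rw [Nat.cast_zero, zero_mul, add_zero]
      refine SR_sum hL _ _ fun v _ => ?_
      have h1 := SR_mul hL (hcK v) (hXb (w v).tail β)
      rwa [add_zero] at h1
    | succ k ih =>
      set t : ℝ := -K + k * Real.log 2 with ht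
      have ht1 : -K + ((k + 1 : ℕ) : ℝ) * Real.log 2 = t + Real.log 2 := by
        rw [ht]
        push_cast
        ring
      rw [ht1]
      obtain ⟨q0, hq0⟩ := exists_nat_ge (Real.exp (t + Real.log 2 + K))
      set f : {i // x i = y} × List I → ℕ → GG := fun p q =>
        (ug s q p.1.1 / ch1 hL q (-y)) * Gj s p.2 (pr q) with hf
      have hG := gauss hL (q0 + m0) (t + Real.log 2) (Finset.univ ×ˢ Λ) f (by
        rintro ⟨i, β⟩ hp q
        rw [Finset.mem_product] at hp
        have h3 := ug_const hL hs q i.1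
        rw [i.2] at h3
        exact (KK L hL).mul_mem h3 (Gj_KK hs (hΛs β hp.2) _)) (by
        rintro μ hμ ⟨i, β⟩ hp
        rw [Finset.mem_product] at hp
        refine hA (q0 + m0) Λ hΛs (fun i β => μ (i, β)) (fun q hq => ?_) i β hp.2
        have h1 := hμ q hq
        rw [Finset.sum_product] at h1
        have hch : rho (ch1 hL q (-y)) ≠ 0 := by
          rw [Ne, map_eq_zero]
          exact ch1_ne hL q _
        have h2 : (∑ i : {i // x i = y}, ∑ β ∈ Λ, μ (i, β) * rho (f (i, β) q)) *
            rho (ch1 hL q (-y)) = 0 := by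
          rw [h1, zero_mul]
        rw [← h2, Finset.sum_mul]
        refine Finset.sum_congr rfl fun i _ => ?_
        rw [Finset.sum_mul]
        refine Finset.sum_congr rfl fun β _ => ?_
        rw [hf]
        simp only [map_mul, map_div₀]
        have e2 : ug (fun n (i : {i // x i = y}) => s n i.1) q i = ug s q i.1 := rfl
        rw [e2]
        field_simp)
        (fun p => Y p.1.1 p.2) (fun q hq => by
        have h1 := hmain q (by omega)
        have hp := pr_prime q
        have hp0 : 0 < pr q := hp.pos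
        have hpr : (0 : ℝ) < pr q := by exact_mod_cast hp0
        have hlogp : t + Real.log 2 + K ≤ Real.log (pr q) := by
          rw [Real.le_log_iff_exp_le hpr]
          refine hq0.trans ?_
          have := pr_ge q
          exact_mod_cast (by omega : q0 ≤ pr q)
        set N : ℕ := (pr q) ^ (⌈y⌉₊) with hN
        have hy1 : 1 ≤ ⌈y⌉₊ := Nat.one_le_ceil_iff.2 (by linarith only [hy])
        have hN2 : 2 ≤ N := hp.two_le.trans (Nat.le_self_pow (by omega) _)
        have h6 : ∑ i ∈ Finset.univ.filter (fun i => x i = y), rho (ug s q i / ch1 hL q (-y)) *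
            ∑ m ∈ Finset.Ico 2 N, rho (lj s i m) *
              ∑ β ∈ Λ, rho (Gj s β (pr q * m)) * Y i β ∈ SR L (t + Real.log 2) := by
          refine SR_sum hL _ _ fun i hi => ?_
          rw [Finset.mem_filter] at hi
          have h7 : ∑ m ∈ Finset.Ico 2 N, rho (lj s i m) *
              ∑ β ∈ Λ, rho (Gj s β (pr q * m)) * Y i β ∈ SR L (t + Real.log 2) := by
            refine SR_sum hL _ _ fun m hm => ?_
            rw [Finset.mem_Ico] at hm
            have h8 : ∑ β ∈ Λ, rho (Gj s β (pr q * m)) * Y i β ∈ SR L t := by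
              refine SR_sum hL _ _ fun β hβ => ?_
              have h9 := SR_mul hL (SR_Gj hL hs hx β (pr q * m)) (ih i hi.2 β hβ)
              rwa [zero_add] at h9
            have h9 := SR_mul hL (SR_lj hL hs i (m := m) (by omega)) h8
            refine SR_anti hL ?_ h9
            have h10 : Real.log 2 ≤ Real.log m :=
              Real.log_le_log (by norm_num) (by exact_mod_cast hm.1)
            rw [hi.2]
            nlinarith only [h10, hy, hlog2]
          have h3 := ug_const hL hs q i
          rw [hi.2] at h3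
          have h8 := SR_mul hL (SR_KK hL h3) h7
          rwa [zero_add] at h8
        have h7 := SR_sub hL (SR_anti hL (show t + Real.log 2 ≤ Real.log (pr q) - K by
          linarith only [hlogp]) h1) h6
        refine (congrArg (fun z => z ∈ SR L (t + Real.log 2)) ?_).mp h7
        rw [← Finset.sum_sub_distrib, Finset.sum_product]
        rw [Finset.sum_subtype (Finset.univ.filter (fun i => x i = y)) (p := fun i => x i = y)
          (fun i => by
            rw [Finset.mem_filter]
            exact ⟨fun h => h.2, fun h => ⟨Finset.mem_univ _, h⟩⟩)]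
        refine Finset.sum_congr rfl fun i _ => ?_
        rw [← mul_sub, Finset.sum_eq_sum_Ico_succ_bot (by omega : 1 < N), add_sub_cancel_right,
          lj_one, map_one, one_mul, mul_one, Finset.mul_sum]
        refine Finset.sum_congr rfl fun β _ => ?_
        rw [hf]
        simp only [map_mul]
        ring)
      intro i hi β hβ
      exact hG (⟨i, hi⟩, β) (Finset.mem_product.2 ⟨Finset.mem_univ _, hβ⟩)
  intro t
  obtain ⟨k, hk⟩ := exists_nat_ge ((t + K) / Real.log 2)
  refine SR_anti hL ?_ (hboot k i hi β hβ)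
  rw [div_le_iff₀ hlog2] at hk
  linarith only [hk]

end

end Pool.Agent.Y777.AL
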