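import Pool.Agent.Y777.AL.E

/-!
# Linear independence over finite sums of characters (helper777, after `Pool.Agent.Y760.ZG.IndD`)
-/

set_option autoImplicit false

namespace Pool.Agent.Y777.AL

open Filter Topology Pool.Agent.TH932.Abs Pool.Agent.TH932.Germs Pool.Agent.TH932.Chi
open Pool.Agent.TH796.AL Pool.Agent.Y760.ZG

variable {I : Type} [Fintype I] [DecidableEq I] (x : I → ℝ)

open Classical in
/-- the first small letters -/
noncomputable def prej : List I → List I
  | [] => []
  | a :: u => if x a = 0 then a :: prej u else []

open Classical in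
/-- the rest of the word -/
noncomputable def rstj : List I → List I
  | [] => []
  | a :: u => if x a = 0 then rstj u else a :: u

omit [Fintype I] [DecidableEq I] in
lemma prej_small {a : I} (ha : x a = 0) (u : List I) : prej x (a :: u) = a :: prej x u := by
  rw [prej, if_pos ha]
omit [Fintype I] [DecidableEq I] in
lemma prej_large {a : I} (ha : x a ≠ 0) (u : List I) : prej x (a :: u) = [] := by
  rw [prej, if_neg ha]
omit [Fintype I] [DecidableEq I] in
lemma rstj_small {a : I} (ha : x a = 0) (u : List I) : rstj x (a :: u) = rstj x u := by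
  rw [rstj, if_pos ha]
omit [Fintype I] [DecidableEq I] in
lemma rstj_large {a : I} (ha : x a ≠ 0) (u : List I) : rstj x (a :: u) = a :: u := by
  rw [rstj, if_neg ha]

omit [Fintype I] [DecidableEq I] in
lemma prej_mem {t : List I} : ∀ a ∈ prej x t, x a = 0 := by
  induction t with
  | nil =>
    intro a ha
    rw [prej] at ha
    simp at ha
  | cons b u ih =>
    intro a ha
    by_cases hb : x b = 0
    · rw [prej_small x hb, List.mem_cons] at ha
      rcases ha with rfl | ha
      · exact hb
      · exact ih a ha
    · rw [prej_large x hb] at ha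
      simp at ha

omit [Fintype I] [DecidableEq I] in
lemma pre_rstj (t : List I) : t = prej x t ++ rstj x t := by
  induction t with
  | nil =>
    rw [prej, rstj]
    rfl
  | cons a u ih =>
    by_cases ha : x a = 0
    · rw [prej_small x ha, rstj_small x ha, List.cons_append, ← ih]
    · rw [prej_large x ha, rstj_large x ha, List.nil_append]

omit [Fintype I] [DecidableEq I] in
lemma Lj_rstj (t : List I) : Lj x (rstj x t) := by
  induction t with
  | nil =>
    left
    rw [rstj]
  | cons a u ih =>
    by_cases ha : x a = 0
    · rw [rstj_small x ha]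
      exact ih
    · rw [rstj_large x ha]
      exact Or.inr ⟨a, u, rfl, ha⟩

omit [Fintype I] [DecidableEq I] in
lemma rstj_length (t : List I) : (rstj x t).length ≤ t.length := by
  have h1 := congrArg List.length (pre_rstj x t)
  rw [List.length_append] at h1
  omega

omit [Fintype I] in
lemma Xbj_pre (s : ℕ → I → ℕ) (t : List I) : ∀ β : List I, (prej x t).length ≤ β.length →
    Xbj s x t β = if prej x t = β then Xgj s x (rstj x t) else 0 := by
  induction t with
  | nil =>
    intro β _
    unfold Xbj
    rw [spj_nil, List.map_singleton, List.sum_singleton, prej, rstj]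
  | cons a u ih =>
    by_cases ha : x a = 0
    · intro β hβ
      cases β with
      | nil =>
        rw [prej_small x ha, List.length_cons, List.length_nil] at hβ
        omega
      | cons b' β' =>
        rw [prej_small x ha, List.length_cons, List.length_cons] at hβ
        have h1 := ih β' (by omega)
        unfold Xbj at h1 ⊢
        rw [spj_small x ha, List.map_cons, List.sum_cons, List.map_map, prej_small x ha,
          rstj_small x ha]
        rw [if_neg (by simp), zero_add]
        by_cases hb : a = b'
        · subst hb
          simp only [List.cons.injEq, true_and]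
          rw [← h1]
          congr 1
          refine List.map_congr_left fun p _ => ?_
          simp
        · rw [if_neg (by
            intro h2
            rw [List.cons.injEq] at h2
            exact hb h2.1)]
          refine List.sum_eq_zero fun z hz => ?_
          obtain ⟨p, _, rfl⟩ := List.mem_map.1 hz
          simp [hb]
    · intro β _
      unfold Xbj
      rw [spj_large x ha, List.map_singleton, List.sum_singleton, prej_large x ha,
        rstj_large x ha]

section

variable {x} {L : ℕ → ℝ} {hL : Tendsto L atTop atTop} {F : IntermediateField ℚ ℝ}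
  {s : ℕ → I → ℕ}

/-- **multiple zeta values with a large first argument are linearly independent** -/
theorem indWj (hF : FiniteDimensional ℚ F) (hs : Lim s x L) (hx : ∀ i, x i = 0 ∨ 2 ≤ x i)
    (hLs : ∀ i, x i ≠ 0 → ∀ᶠ n in (UU : Filter ℕ), L n ≤ (s n i : ℝ))
    (hA : ∀ y, 2 ≤ y → PIS s (fun n (i : {i // x i = y}) => s n i.1) (fun a => x a = 0))
    (r : ℕ) :
    ∀ (W : Type) [Fintype W] (w : W → List I), Function.Injective w →
      (∀ v, Lj x (w v)) → (∀ v, (w v).length ≤ r) → ∀ c : W → HR, (∀ v, c v ∈ SF hL F) →
      Nul L (∑ v, c v * Xgj s x (w v)) → ∀ v, c v = 0 := by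
  classical
  have hnil : Xgj s x ([] : List I) = 1 := by
    unfold Xgj
    simp only [Xj_nil]
    exact gr_one
  have hA0 : ∀ (W : Type) [Fintype W] (w : W → List I), Function.Injective w →
      ∀ c : W → HR, (∀ v, c v ∈ SF hL F) → Nul L (∑ v, c v * Xgj s x (w v)) →
      (∀ v, c v ≠ 0 → w v = []) → ∀ v, c v = 0 := by
    intro W _ w hw c hc hn h0 v
    by_contra hv
    have h1 : ∑ v, c v * Xgj s x (w v) = c v := by
      rw [Finset.sum_eq_single v]
      · rw [h0 v hv, hnil, mul_one]
      · intro v' _ hv'
        by_contra h2
        have h3 : c v' ≠ 0 := left_ne_zero_of_mul h2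
        exact hv' (hw ((h0 v' h3).trans (h0 v hv).symm))
      · intro h2
        exact absurd (Finset.mem_univ v) h2
    rw [h1] at hn
    exact hv (SF_nul hF (hc v) hn)
  induction r with
  | zero =>
    intro W _ w hw hst hlen c hc hn
    exact hA0 W w hw c hc hn fun v _ => List.length_eq_zero_iff.1 (Nat.le_zero.1 (hlen v))
  | succ r ih =>
    intro W _ w hw hst hlen c hc hn
    by_cases hB : ∀ v, c v ≠ 0 → w v = []
    · exact hA0 W w hw c hc hn hB
    exfalso
    push Not at hB
    obtain ⟨v2, hv2, hv2'⟩ := hB
    set φ : W → ℝ := fun v => match w v with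
      | i :: _ => x i
      | _ => 0 with hφ
    obtain ⟨v3, hv3, hmin⟩ := Finset.exists_min_image
      (Finset.univ.filter fun v => c v ≠ 0 ∧ w v ≠ []) φ
      ⟨v2, Finset.mem_filter.2 ⟨Finset.mem_univ _, hv2, hv2'⟩⟩
    rw [Finset.mem_filter] at hv3
    obtain ⟨i3, u3, h3, hi3⟩ := (hst v3).resolve_left hv3.2.2
    have hφ3 : φ v3 = x i3 := by
      rw [hφ]
      simp only [h3]
    have hw' : ∀ v, c v ≠ 0 → w v = [] ∨ ∃ i u, w v = i :: u ∧ x i3 ≤ x i := by
      intro v hv
      rcases hst v with h | ⟨i, u, h, _⟩
      · exact Or.inl h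
      · right
        refine ⟨i, u, h, ?_⟩
        have h4 := hmin v (Finset.mem_filter.2 ⟨Finset.mem_univ _, hv, by rw [h]; simp⟩)
        rw [hφ3] at h4
        have h5 : φ v = x i := by
          rw [hφ]
          simp only [h]
        rwa [h5] at h4
    have hy2 : 2 ≤ x i3 := (hx i3).resolve_left hi3
    have hheads := fun β => headsj hF hs hx hLs w hst c hc hn hy2 (hA _ hy2) hw' rfl β
    obtain ⟨v4, hv4, hmax⟩ := Finset.exists_max_image
      (Finset.univ.filter fun v => c v ≠ 0 ∧ hdj i3 (w v)) (fun v => (prej x (w v).tail).length)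
      ⟨v3, Finset.mem_filter.2 ⟨Finset.mem_univ _, hv3.2.1, by rw [h3, hdj_cons]⟩⟩
    rw [Finset.mem_filter] at hv4
    set β : List I := prej x (w v4).tail with hβ
    have h5 := ih {v // c v ≠ 0 ∧ hdj i3 (w v) ∧ prej x (w v).tail = β}
      (fun v => rstj x (w v).tail) (fun v v' hvv => by
        apply Subtype.ext
        apply hw
        rw [hdj_eq v.2.2.1, hdj_eq v'.2.2.1, pre_rstj x (w v).tail, pre_rstj x (w v').tail,
          v.2.2.2, v'.2.2.2]
        congr 2) (fun v => Lj_rstj x _) (fun v => by
        have h6 := rstj_length x (w v).tail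
        have h7 := hlen v
        have h8 := congrArg List.length (hdj_eq v.2.2.1)
        rw [List.length_cons] at h8
        omega) (fun v => c v) (fun v => hc v) (by
        refine (congrArg (Nul L) ?_).mp (hheads β)
        have e1 : ∀ v ∈ Finset.univ.filter (fun v => hdj i3 (w v)),
            c v * Xbj s x (w v).tail β = if c v ≠ 0 ∧ hdj i3 (w v) ∧ prej x (w v).tail = β then
              c v * Xgj s x (rstj x (w v).tail) else 0 := by
          intro v hv
          rw [Finset.mem_filter] at hv
          by_cases hcv : c v = 0
          · rw [hcv, zero_mul, if_neg]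
            intro h
            exact h.1 rfl
          · have h9 := hmax v (Finset.mem_filter.2 ⟨Finset.mem_univ _, hcv, hv.2⟩)
            rw [Xbj_pre x s (w v).tail β h9]
            by_cases h10 : prej x (w v).tail = β
            · rw [if_pos h10, if_pos ⟨hcv, hv.2, h10⟩]
            · rw [if_neg h10, if_neg (fun h => h10 h.2.2), mul_zero]
        rw [Finset.sum_congr rfl e1, ← Finset.sum_filter, Finset.filter_filter]
        refine Finset.sum_subtype _ (fun v => ?_) (fun v => c v * Xgj s x (rstj x (w v).tail))
        rw [Finset.mem_filter]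
        constructor
        · intro h
          exact h.2.2
        · intro h
          exact ⟨Finset.mem_univ _, h.2.1, h⟩) ⟨v4, hv4.2.1, hv4.2.2, rfl⟩
    exact hv4.2.1 h5

end

end Pool.Agent.Y777.AL
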