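import Pool.Agent.Y777.AL.F

/-!
# Independence at the primes: reductions and the case of constant exponents (helper777)
-/

set_option autoImplicit false

namespace Pool.Agent.Y777.AL

open Filter Topology Pool.Agent.TH932.Abs Pool.Agent.TH932.Germs Pool.Agent.TH932.Chi
open Pool.Agent.TH796.AL Pool.Agent.Y760.ZG

/-! ### restriction of the letters -/

lemma Gj_map {I : Type} (s : ℕ → I → ℕ) (A : I → Prop) (β : List {i // A i}) : ∀ k,
    Gj (fun n (i : {i // A i}) => s n i.1) β k = Gj s (β.map Subtype.val) k := by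
  induction β with
  | nil =>
    intro k
    rw [Gj_nil, List.map_nil, Gj_nil]
  | cons a β ih =>
    intro k
    rw [Gj_cons, List.map_cons, Gj_cons]
    exact Finset.sum_congr rfl fun m _ => by rw [ih]; rfl

lemma PIS_sub {I J : Type} [Fintype J] {s : ℕ → I → ℕ} {D : ℕ → J → ℕ} {A : I → Prop}
    (h : PIS (fun n (i : {i // A i}) => s n i.1) D (fun _ => True)) : PIS s D A := by
  classical
  intro q0 Λ hΛ c hc j β hβ
  have hinj : Function.Injective (List.map (Subtype.val : {i // A i} → I)) :=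
    List.map_injective_iff.2 Subtype.val_injective
  have h1 := h q0 (Λ.preimage (List.map Subtype.val) hinj.injOn) (fun _ _ _ _ => trivial)
    (fun j β => c j (β.map Subtype.val)) (fun q hq => by
      rw [← hc q hq]
      refine Finset.sum_congr rfl fun j _ => ?_
      have h2 := Finset.sum_preimage (List.map (Subtype.val : {i // A i} → I)) Λ hinj.injOn
        (fun β => c j β * rho (ug D q j * Gj s β (pr q))) (fun β hβ hβ' => by
          exfalso
          apply hβ'
          have h3 := hΛ β hβ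
          exact ⟨β.attach.map fun a => ⟨a.1, h3 a.1 a.2⟩, by
            rw [List.map_map]
            show List.map (fun a => a.1) β.attach = β
            exact List.attach_map_subtype_val β⟩)
      rw [← h2]
      refine Finset.sum_congr rfl fun β _ => ?_
      rw [Gj_map]) j
  have h3 := hΛ β hβ
  have h4 : (β.attach.map fun a => (⟨a.1, h3 a.1 a.2⟩ : {i // A i})).map Subtype.val = β := by
    rw [List.map_map]
    show List.map (fun a => a.1) β.attach = β
    exact List.attach_map_subtype_val β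
  have h5 := h1 (β.attach.map fun a => (⟨a.1, h3 a.1 a.2⟩ : {i // A i})) (by
    rw [Finset.mem_preimage, h4]
    exact hβ)
  rwa [h4] at h5

/-! ### shift of the exponents -/

lemma PIS_shift {I J : Type} [Fintype J] {s : ℕ → I → ℕ} {D D' : ℕ → J → ℕ} {m : ℕ → ℕ}
    {A : I → Prop} (hD : ∀ n j, D n j = D' n j + m n) (h : PIS s D' A) : PIS s D A := by
  intro q0 Λ hΛ c hc
  refine h q0 Λ hΛ c fun q hq => ?_
  set u : GG := gm fun n => ((pr q : ℚ) ^ (m n))⁻¹ with hu
  have hp : (pr q : ℚ) ≠ 0 := by exact_mod_cast (pr_prime q).ne_zero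
  have hu0 : rho u ≠ 0 := by
    rw [Ne, map_eq_zero]
    intro h0
    rw [hu, ← gm_zero, gm_eq] at h0
    obtain ⟨n, hn⟩ := h0.exists
    exact inv_ne_zero (pow_ne_zero _ hp) hn
  have hug : ∀ j, ug D q j = ug D' q j * u := by
    intro j
    rw [hu]
    unfold ug
    rw [gm_mul]
    congr 1
    funext n
    rw [hD, pow_add, mul_inv]
  have h1 := hc q hq
  have h2 : ∑ j, ∑ β ∈ Λ, c j β * rho (ug D q j * Gj s β (pr q)) =
      (∑ j, ∑ β ∈ Λ, c j β * rho (ug D' q j * Gj s β (pr q))) * rho u := by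
    rw [Finset.sum_mul]
    refine Finset.sum_congr rfl fun j _ => ?_
    rw [Finset.sum_mul]
    refine Finset.sum_congr rfl fun β _ => ?_
    rw [hug]
    simp only [map_mul]
    ring
  rw [h2] at h1
  exact (mul_eq_zero.1 h1).resolve_right hu0

/-! ### unbounded letters -/

/-- not eventually constant -/
def unb {I : Type} (s : ℕ → I → ℕ) (i : I) : Prop := ¬ ∃ b : ℕ, ∀ᶠ n in (UU : Filter ℕ), s n i = b

open Classical in
/-- the number of unbounded letters -/
noncomputable def nb {I : Type} [Fintype I] (s : ℕ → I → ℕ) : ℕ :=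
  (Finset.univ.filter (unb s)).card

open Classical in
lemma nb_sub {I : Type} [Fintype I] (s : ℕ → I → ℕ) (A : I → Prop) :
    nb (fun n (i : {i // A i}) => s n i.1) =
      (Finset.univ.filter (fun i => A i ∧ unb s i)).card := by
  unfold nb
  rw [← Finset.card_image_of_injective _ (Subtype.val_injective (p := A))]
  congr 1
  ext i
  rw [Finset.mem_image, Finset.mem_filter]
  constructor
  · rintro ⟨a, ha, rfl⟩
    rw [Finset.mem_filter] at ha
    exact ⟨Finset.mem_univ _, a.2, ha.2⟩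
  · rintro ⟨_, h1, h2⟩
    exact ⟨⟨i, h1⟩, Finset.mem_filter.2 ⟨Finset.mem_univ _, h2⟩, rfl⟩

open Classical in
lemma nb_sub_lt {I : Type} [Fintype I] (s : ℕ → I → ℕ) (A : I → Prop) {i : I} (hi : unb s i)
    (hA : ¬ A i) : nb (fun n (i : {i // A i}) => s n i.1) < nb s := by
  classical
  rw [nb_sub]
  unfold nb
  refine Finset.card_lt_card ⟨fun a ha => ?_, fun h => ?_⟩
  · rw [Finset.mem_filter] at ha ⊢
    exact ⟨ha.1, ha.2.2⟩
  · have h1 := h (Finset.mem_filter.2 ⟨Finset.mem_univ i, hi⟩)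
    exact hA (Finset.mem_filter.1 h1).2.1

lemma nb_card {I : Type} [Fintype I] [DecidableEq I] (s : ℕ → I → ℕ) (x : I → ℝ)
    (hx : ∀ i, x i ≠ 0 → unb s i) {y : ℝ} (hy : y ≠ 0) :
    Fintype.card {i // x i = y} + nb (fun n (i : {i // x i = 0}) => s n i.1) ≤ nb s := by
  classical
  rw [nb_sub, Fintype.card_subtype, ← Finset.card_union_of_disjoint]
  · unfold nb
    refine Finset.card_le_card fun a ha => ?_
    rw [Finset.mem_union, Finset.mem_filter, Finset.mem_filter] at ha
    rw [Finset.mem_filter]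
    rcases ha with ⟨_, h⟩ | ⟨_, _, h⟩
    · exact ⟨Finset.mem_univ _, hx a (by rw [h]; exact hy)⟩
    · exact ⟨Finset.mem_univ _, h⟩
  · rw [Finset.disjoint_left]
    intro a h1 h2
    rw [Finset.mem_filter] at h1 h2
    exact hy (h1.2.symm.trans h2.2.1)

/-! ### limits -/

lemma lim_exists {I : Type} {M : ℕ → ℕ} (hM : ∀ n, n ≤ M n) {s : ℕ → I → ℕ}
    (hs : ∀ n i, s n i ≤ M n) :
    ∃ x : I → ℝ, (∀ i, 0 ≤ x i) ∧ Lim s x (fun n => (M n : ℝ)) := by
  have h1 : ∀ i, ∃ x : ℝ, x ∈ Set.Icc (0 : ℝ) 1 ∧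
      Tendsto (fun t => (s t i : ℝ) / M t) (UU : Filter ℕ) (𝓝 x) := by
    intro i
    obtain ⟨x, hx, hx'⟩ := (isCompact_Icc (a := (0 : ℝ)) (b := 1)).ultrafilter_le_nhds
      (UU.map fun t => (s t i : ℝ) / M t) (by
        rw [Filter.le_principal_iff, Ultrafilter.coe_map, Filter.mem_map]
        refine Eventually.of_forall fun t => ?_
        have h4 : (s t i : ℝ) ≤ M t := by exact_mod_cast hs t i
        exact ⟨div_nonneg (Nat.cast_nonneg _) (Nat.cast_nonneg _),
          div_le_one_of_le₀ h4 (Nat.cast_nonneg _)⟩)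
    exact ⟨x, hx, hx'⟩
  choose x hx hx' using h1
  refine ⟨x, fun i => (hx i).1, fun i ε hε => ?_⟩
  have h2 := (Metric.tendsto_nhds.1 (hx' i)) ε hε
  filter_upwards [h2, ev_of_atTop (eventually_ge_atTop 1)] with t h3 ht
  have h4 := hM t
  have h5 : (0 : ℝ) < M t := by exact_mod_cast (by omega : 0 < M t)
  rw [Real.dist_eq] at h3
  have h6 : (s t i : ℝ) - x i * M t = ((s t i : ℝ) / M t - x i) * M t := by
    field_simp
  rw [h6, abs_mul, abs_of_pos h5]
  exact mul_le_mul_of_nonneg_right h3.le h5.le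

lemma Lim_unb {I : Type} {s : ℕ → I → ℕ} {x : I → ℝ} {L : ℕ → ℝ} (hL : Tendsto L atTop atTop)
    (hs : Lim s x L) {i : I} (hi : x i ≠ 0) : unb s i := by
  rintro ⟨b, hb⟩
  have h1 := hs i (|x i| / 2) (by positivity)
  have h2 : ∀ᶠ n in (UU : Filter ℕ), (2 * (b : ℝ) + 1) / |x i| ≤ L n :=
    ev_of_atTop (hL.eventually_ge_atTop _)
  have h0 : 0 < |x i| := abs_pos.2 hi
  obtain ⟨n, h3, h4, h5, h6⟩ := (hb.and (h1.and (h2.and (L_nonneg hL)))).exists
  rw [h3] at h4
  rw [div_le_iff₀ h0] at h5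
  have h7 : |x i * L n| = |x i| * L n := by rw [abs_mul, abs_of_nonneg h6]
  have h8 : |x i| * L n ≤ |(b : ℝ) - x i * L n| + b := by
    rw [← h7]
    calc |x i * L n| = |-((b : ℝ) - x i * L n) + b| := by
          congr 1
          ring
      _ ≤ |-((b : ℝ) - x i * L n)| + |(b : ℝ)| := abs_add_le _ _
      _ = _ := by rw [abs_neg, Nat.abs_cast]
  nlinarith only [h4, h5, h8]

/-! ### constant exponents -/

/-- **the case of constant exponents** -/
lemma PIS_const {I J : Type} [Fintype I] [DecidableEq I] [Fintype J] [DecidableEq J]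
    {s : ℕ → I → ℕ} {D : ℕ → J → ℕ} (hs : ∀ n, Function.Injective (s n))
    (hD : ∀ n, Function.Injective (D n)) (hs1 : ∀ n i, 1 ≤ s n i) {b : ℕ}
    (hsb : ∀ᶠ n in (UU : Filter ℕ), (∀ i, s n i ≤ b) ∧ ∀ j, D n j ≤ b) :
    PIS s D (fun _ => True) := by
  classical
  intro q0 Λ _ c hc j0 β0 hβ0
  -- the constants
  have h1 : ∀ i, ∃ e : ℕ, ∀ᶠ n in (UU : Filter ℕ), s n i = e := by
    intro i
    have h2 : Set.Iic b ∈ UU.map (fun n => s n i) := by
      show ∀ᶠ n in (UU : Filter ℕ), s n i ∈ Set.Iic b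
      filter_upwards [hsb] with n hn
      exact hn.1 i
    obtain ⟨a, _, ha⟩ := Ultrafilter.eq_pure_of_finite_mem (Set.finite_Iic b) h2
    refine ⟨a, ?_⟩
    have h3 : ({a} : Set ℕ) ∈ UU.map (fun n => s n i) := by
      rw [ha]
      exact Ultrafilter.mem_pure.2 rfl
    exact h3
  have h2 : ∀ j, ∃ e : ℕ, ∀ᶠ n in (UU : Filter ℕ), D n j = e := by
    intro j
    have h2 : Set.Iic b ∈ UU.map (fun n => D n j) := by
      show ∀ᶠ n in (UU : Filter ℕ), D n j ∈ Set.Iic b
      filter_upwards [hsb] with n hn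
      exact hn.2 j
    obtain ⟨a, _, ha⟩ := Ultrafilter.eq_pure_of_finite_mem (Set.finite_Iic b) h2
    refine ⟨a, ?_⟩
    have h3 : ({a} : Set ℕ) ∈ UU.map (fun n => D n j) := by
      rw [ha]
      exact Ultrafilter.mem_pure.2 rfl
    exact h3
  choose e he using h1
  choose d hd using h2
  have hall : ∀ᶠ n in (UU : Filter ℕ), (∀ i, s n i = e i) ∧ ∀ j, D n j = d j := by
    have h3 : ∀ᶠ n in (UU : Filter ℕ), ∀ i, s n i = e i := Filter.eventually_all.2 he
    have h4 : ∀ᶠ n in (UU : Filter ℕ), ∀ j, D n j = d j := Filter.eventually_all.2 hd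
    exact h3.and h4
  obtain ⟨n0, hn0, hn0'⟩ := hall.exists
  have he1 : ∀ i, 0 < e i := fun i => by
    have := hs1 n0 i
    rw [hn0 i] at this
    exact this
  set bp : I → ℕ+ := fun i => ⟨e i, he1 i⟩ with hbp
  have hbpi : Function.Injective bp := by
    intro i i' h
    apply hs n0
    rw [hn0 i, hn0 i']
    exact congrArg PNat.val h
  have hdi : Function.Injective d := by
    intro j j' h
    apply hD n0
    rw [hn0' j, hn0' j', h]
  set E : List I → List ℕ+ := List.map bp with hE
  have hEi : Function.Injective E := List.map_injective_iff.2 hbpi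
  have hcl : ∀ β : List I, cl (E β) = β.map e := by
    intro β
    induction β with
    | nil => rfl
    | cons a β ih =>
      rw [hE] at ih ⊢
      rw [List.map_cons, List.map_cons]
      show (bp a : ℕ) :: cl (List.map bp β) = _
      rw [ih]
      rfl
  -- real functionals
  by_contra hne
  obtain ⟨φ, hφ⟩ : ∃ φ : Module.Dual ℝ HR, φ (c j0 β0) ≠ 0 := by
    by_contra hcon
    push Not at hcon
    exact hne ((Module.forall_dual_apply_eq_zero_iff ℝ (c j0 β0)).1 hcon)
  apply hφ
  have hval : ∀ q j β, rho (ug D q j * Gj s β (pr q)) =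
      algebraMap ℝ HR (((pr q : ℝ) ^ (d j))⁻¹ * hr (β.map e) (pr q)) := by
    intro q j β
    rw [map_mul, rho_Gj]
    unfold ug
    rw [rho_gm, gr_mul, cst_eq, gr_eq]
    filter_upwards [hall] with n hn
    have h3 : aj s n β = β.map e := by
      unfold aj
      exact List.map_congr_left fun a _ => hn.1 a
    rw [h3, hn.2 j]
    push_cast
    rfl
  set Λ' : Finset (List ℕ+) := Λ.image E with hΛ'
  have hfin := env_fin Λ' Finset.univ (fun j : J => (d j : ℤ)) (fun j _ j' _ h => by
      apply hdi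
      exact_mod_cast h) (fun j β => φ (c j (Function.invFun E β.1))) q0 (fun q hq => by
    have h3 := congrArg φ (hc q hq)
    rw [map_zero] at h3
    rw [← h3, map_sum]
    refine Finset.sum_congr rfl fun j _ => ?_
    rw [map_sum, Finset.mul_sum]
    rw [Finset.sum_coe_sort Λ' (fun β => ((pr q : ℝ) ^ (d j : ℤ))⁻¹ *
      (hr (cl β) (pr q) * φ (c j (Function.invFun E β))))]
    rw [hΛ', Finset.sum_image fun a _ b _ h => hEi h]
    refine Finset.sum_congr rfl fun β _ => ?_
    rw [Function.leftInverse_invFun hEi β, hval, hcl, mul_comm (c j β), ← Algebra.smul_def,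
      map_smul, smul_eq_mul, zpow_natCast]
    ring) j0 (Finset.mem_univ _) ⟨E β0, Finset.mem_image_of_mem _ hβ0⟩
  simp only at hfin
  rwa [Function.leftInverse_invFun hEi β0] at hfin

end Pool.Agent.Y777.AL
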