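import Pool.Agent.Y777.AL.G

/-!
# Independence at the primes: the two steps (helper777)
-/

set_option autoImplicit false

namespace Pool.Agent.Y777.AL

open Filter Topology Pool.Agent.TH932.Abs Pool.Agent.TH932.Germs Pool.Agent.TH932.Chi
open Pool.Agent.TH796.AL Pool.Agent.Y760.ZG

section

variable {I J : Type} [Fintype I] [DecidableEq I] [Fintype J] [DecidableEq J]
  {s : ℕ → I → ℕ} {D : ℕ → J → ℕ} {L : ℕ → ℝ} {hL : Tendsto L atTop atTop}
  {F : IntermediateField ℚ ℝ} {x : I → ℝ} {d : J → ℝ}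

omit [Fintype I] [DecidableEq I] in
lemma SF_ug (hD : Lim D d L) (q : ℕ) (j : J) : rho (ug D q j) ∈ SF hL F :=
  SF_of_NQ (NQ_lj_ne (hL := hL) (F := F) hD j (q := q + 1) (q' := q) (m := q + 1) (by omega)
    (by omega))

/-- the coefficients can be taken among the finite sums of characters -/
lemma to_SF (hs : Lim s x L) (hD : Lim D d L) {q0 : ℕ} {Λ : Finset (List I)}
    {c : J → List I → HR} (hc : ∀ q, q0 ≤ q →
      ∑ j, ∑ β ∈ Λ, c j β * rho (ug D q j * Gj s β (pr q)) = 0) {j0 : J} {β0 : List I}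
    (hβ0 : β0 ∈ Λ) (hne : c j0 β0 ≠ 0) : ∃ c' : J → List I → HR, c' j0 β0 ≠ 0 ∧
      (∀ j β, c' j β ∈ SF hL F) ∧
      ∀ q, q0 ≤ q → ∑ j, ∑ β ∈ Λ, c' j β * rho (ug D q j * Gj s β (pr q)) = 0 := by
  classical
  obtain ⟨c', h1, h2, h3⟩ := descend (SF hL F) (Finset.univ ×ˢ Λ) (fun q : ℕ => q0 ≤ q)
    (fun (p : J × List I) q => rho (ug D q p.1 * Gj s p.2 (pr q))) (fun p _ q _ => by
      simp only [map_mul]
      exact (SF hL F).mul_mem (SF_ug hD q p.1) (SF_Gj hs p.2 _)) (fun p => c p.1 p.2)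
    (fun q hq => by
      rw [Finset.sum_product]
      exact hc q hq) (k0 := (j0, β0)) hne
  refine ⟨fun j β => c' (j, β), h2 (Finset.mem_product.2 ⟨Finset.mem_univ _, hβ0⟩),
    fun j β => h1 _, fun q hq => ?_⟩
  have h4 := h3 q hq
  rw [Finset.sum_product] at h4
  exact h4

/-- **the classes of the exponents** -/
lemma step_cls (hF : FiniteDimensional ℚ F) (hs : Lim s x L) (hD : Lim D d L) {q0 : ℕ}
    {Λ : Finset (List I)} {c : J → List I → HR} (hcS : ∀ j β, c j β ∈ SF hL F)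
    (hc : ∀ q, q0 ≤ q → ∑ j, ∑ β ∈ Λ, c j β * rho (ug D q j * Gj s β (pr q)) = 0) :
    ∃ q1 : ℕ, ∀ q, q1 ≤ q → ∀ e : ℝ, ∑ j : {j // d j = e}, ∑ β ∈ Λ,
      c j.1 β * rho (ug D q j.1 * Gj s β (pr q)) = 0 := by
  classical
  obtain ⟨m0, hm0⟩ := SF_common (J := J × Λ) (x := fun p => c p.1 p.2.1)
    (fun p => hcS p.1 p.2.1)
  refine ⟨q0 + m0, fun q hq e => ?_⟩
  have hqM : q < pr q := by
    have := pr_ge q
    omega
  set R : ℝ → HR := fun e => ∑ j ∈ Finset.univ.filter (fun j => d j = e), ∑ β ∈ Λ,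
    c j β * (rho (ug D q j / ch1 hL q (-e)) * rho (Gj s β (pr q))) with hR
  have hRNQ : ∀ e, NQ hL F q (pr q) (R e) := by
    intro e
    refine NQ.sum _ _ fun j hj => NQ.sum _ _ fun β hβ => ?_
    rw [Finset.mem_filter] at hj
    refine ((hm0 q (by omega) (j, ⟨β, hβ⟩)).mono hqM.le).mul (NQ.mul ?_ ?_)
    · have h1 := ug_const hL hD q j
      rw [hj.2] at h1
      exact NQ.coe ⟨_, rho_mem_KA hL F ⟨_, h1⟩⟩
    · exact NQ_Gj hs hqM (by omega) β
  have hmul : ∀ e, rho (ch1 hL q (-e)) * R e =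
      ∑ j ∈ Finset.univ.filter (fun j => d j = e), ∑ β ∈ Λ,
        c j β * rho (ug D q j * Gj s β (pr q)) := by
    intro e
    rw [hR]
    simp only
    rw [Finset.mul_sum]
    refine Finset.sum_congr rfl fun j _ => ?_
    rw [Finset.mul_sum]
    refine Finset.sum_congr rfl fun β _ => ?_
    have hch : rho (ch1 hL q (-e)) ≠ 0 := by
      rw [Ne, map_eq_zero]
      exact ch1_ne hL q _
    rw [map_div₀, map_mul]
    field_simp
  set Y : Finset ℝ := Finset.univ.image d with hY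
  have htot : ∑ e ∈ Y, rho (ch (bs (pr q)) hL (Pi.single ⟨q, hqM⟩ (-e))) * R e = 0 := by
    rw [← hc q (by omega)]
    have h1 : ∀ e ∈ Y, rho (ch (bs (pr q)) hL (Pi.single ⟨q, hqM⟩ (-e))) * R e =
        ∑ j ∈ Finset.univ.filter (fun j => d j = e), ∑ β ∈ Λ,
          c j β * rho (ug D q j * Gj s β (pr q)) := by
      intro e _
      rw [ch1_eq, hmul]
    rw [Finset.sum_congr rfl h1]
    exact Finset.sum_fiberwise_of_maps_to (fun j hj => Finset.mem_image_of_mem d hj) _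
  have hR0 : ∀ e ∈ Y, R e = 0 := by
    intro e he
    refine SF_nul hF (SF_of_NQ (hRNQ e)) fun t => ?_
    have h1 := split hF hqM Y R (fun e _ => hRNQ e) (x := t + e * Real.log (pr q)) (by
      rw [htot]
      exact SR_zero _) e he
    rwa [add_sub_cancel_right] at h1
  have h2 : ∑ j ∈ Finset.univ.filter (fun j => d j = e), ∑ β ∈ Λ,
      c j β * rho (ug D q j * Gj s β (pr q)) = 0 := by
    by_cases he : e ∈ Y
    · rw [← hmul, hR0 e he, mul_zero]
    · rw [Finset.filter_eq_empty_iff.2, Finset.sum_empty]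
      intro j _ hj
      exact he (Finset.mem_image.2 ⟨j, Finset.mem_univ _, hj⟩)
  rw [← h2]
  exact (Finset.sum_subtype (Finset.univ.filter (fun j => d j = e)) (p := fun j => d j = e)
    (fun j => by
      rw [Finset.mem_filter]
      exact ⟨fun h => h.2, fun h => ⟨Finset.mem_univ _, h⟩⟩)
    (fun j => ∑ β ∈ Λ, c j β * rho (ug D q j * Gj s β (pr q)))).symm

/-- **one class** -/
lemma step_one (hF : FiniteDimensional ℚ F) (hs : Lim s x L) (hD : Lim D (fun _ => 0) L)
    (hx : ∀ i, x i = 0 ∨ 2 ≤ x i)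
    (hLs : ∀ i, x i ≠ 0 → ∀ᶠ n in (UU : Filter ℕ), L n ≤ (s n i : ℝ))
    (hJ : PIS s D (fun a => x a = 0))
    (hA : ∀ y, 2 ≤ y → PIS s (fun n (i : {i // x i = y}) => s n i.1) (fun a => x a = 0))
    {q0 : ℕ} {Λ : Finset (List I)} {c : J → List I → HR} (hcS : ∀ j β, c j β ∈ SF hL F)
    (hc : ∀ q, q0 ≤ q → ∑ j, ∑ β ∈ Λ, c j β * rho (ug D q j * Gj s β (pr q)) = 0) :
    ∀ j, ∀ β ∈ Λ, c j β = 0 := by
  classical
  set Λ' : Finset (List I) := Λ.biUnion fun β => ((spj x β).map Prod.fst).toFinset with hΛ'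
  have hΛm : ∀ β ∈ Λ, ∀ p ∈ spj x β, p.1 ∈ Λ' := by
    intro β hβ p hp
    rw [hΛ', Finset.mem_biUnion]
    refine ⟨β, hβ, ?_⟩
    rw [List.mem_toFinset, List.mem_map]
    exact ⟨p, hp, rfl⟩
  have hΛs : ∀ ν ∈ Λ', ∀ a ∈ ν, x a = 0 := by
    intro ν hν a ha
    rw [hΛ', Finset.mem_biUnion] at hν
    obtain ⟨β, _, hν⟩ := hν
    rw [List.mem_toFinset, List.mem_map] at hν
    obtain ⟨p, hp, rfl⟩ := hν
    exact spj_mem x p hp a ha
  set Z : J → List I → HR := fun j ν => ∑ β ∈ Λ, c j β * Xbj s x β ν with hZ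
  -- bounds for the coefficients
  choose c0 hc0 hc0' using fun (p : J × Λ) => SF_bdd (hcS p.1 p.2.1)
  set K : ℝ := ∑ p, c0 p with hK
  have hcK : ∀ j, ∀ β ∈ Λ, c j β ∈ SR L (-K) := fun j β hβ =>
    SR_anti hL (neg_le_neg (Finset.single_le_sum (f := c0) (fun v _ => hc0 v)
      (Finset.mem_univ (j, ⟨β, hβ⟩)))) (hc0' (j, ⟨β, hβ⟩))
  have hug : ∀ q j, ug D q j ∈ KK L hL := by
    intro q j
    have h1 := ug_const hL hD q j
    rwa [neg_zero, ch1_zero, div_one] at h1
  -- the coefficients of the expansions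
  have hZn : ∀ j, ∀ ν ∈ Λ', Nul L (Z j ν) := by
    intro j ν hν t
    obtain ⟨q1, hq1⟩ := exists_nat_ge (Real.exp (t + K))
    set f : J × List I → ℕ → GG := fun p q => ug D q p.1 * Gj s p.2 (pr q) with hf
    refine gauss hL (q0 + q1) t (Finset.univ ×ˢ Λ') f (by
      rintro ⟨j, ν⟩ hp q
      rw [Finset.mem_product] at hp
      exact (KK L hL).mul_mem (hug q j) (Gj_KK hs (hΛs ν hp.2) _)) (by
      rintro μ hμ ⟨j, ν⟩ hp
      rw [Finset.mem_product] at hp
      refine hJ (q0 + q1) Λ' hΛs (fun j ν => μ (j, ν)) (fun q hq => ?_) j ν hp.2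
      have h1 := hμ q hq
      rw [Finset.sum_product] at h1
      exact h1) (fun p => Z p.1 p.2) (fun q hq => ?_) (j, ν)
      (Finset.mem_product.2 ⟨Finset.mem_univ _, hν⟩)
    have hp := pr_prime q
    have hpr : (0 : ℝ) < pr q := by exact_mod_cast hp.pos
    have hlogp : t + K ≤ Real.log (pr q) := by
      rw [Real.le_log_iff_exp_le hpr]
      refine hq1.trans ?_
      have := pr_ge q
      exact_mod_cast (by omega : q1 ≤ pr q)
    have h1 : ∑ j, ∑ β ∈ Λ, c j β * (rho (ug D q j) * Rgj s x β (pr q)) ∈ SR L t := by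
      refine SR_sum hL _ _ fun j _ => SR_sum hL _ _ fun β hβ => ?_
      have h2 := SR_mul hL (hcK j β hβ) (SR_mul hL (SR_KK hL (hug q j))
        (SR_Rgj hL hLs β (k := pr q) hp.pos))
      refine SR_anti hL ?_ h2
      linarith only [hlogp]
    have h2 : ∑ p ∈ Finset.univ ×ˢ Λ', Z p.1 p.2 * rho (f p q) =
        - ∑ j, ∑ β ∈ Λ, c j β * (rho (ug D q j) * Rgj s x β (pr q)) := by
      rw [eq_neg_iff_add_eq_zero, Finset.sum_product, ← hc q (by omega),
        ← Finset.sum_add_distrib]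
      refine Finset.sum_congr rfl fun j _ => ?_
      have h3 : ∑ ν ∈ Λ', Z j ν * rho (f (j, ν) q) =
          ∑ β ∈ Λ, c j β * (rho (ug D q j) * ∑ ν ∈ Λ', rho (Gj s ν (pr q)) * Xbj s x β ν) := by
        rw [hZ, hf]
        simp only [Finset.sum_mul, Finset.mul_sum, map_mul]
        rw [Finset.sum_comm]
        refine Finset.sum_congr rfl fun β _ => Finset.sum_congr rfl fun ν _ => ?_
        ring
      rw [h3, ← Finset.sum_add_distrib]
      refine Finset.sum_congr rfl fun β hβ => ?_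
      rw [map_mul, Gj_expand hL hLs β (k := pr q) hp.pos,
        Xbj_sum s x Λ' (spj x β) (hΛm β hβ) (fun ν => rho (Gj s ν (pr q)))]
      unfold Xbj
      ring
    rw [h2]
    exact SR_neg h1
  -- the longest first parts
  intro j
  by_contra hcon
  push Not at hcon
  obtain ⟨β1, hβ1, hβ1'⟩ := hcon
  obtain ⟨β4, hβ4, hmax⟩ := Finset.exists_max_image (Λ.filter fun β => c j β ≠ 0)
    (fun β => (prej x β).length) ⟨β1, Finset.mem_filter.2 ⟨hβ1, hβ1'⟩⟩
  rw [Finset.mem_filter] at hβ4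
  set ν : List I := prej x β4 with hν
  have hνs : ∀ a ∈ ν, x a = 0 := prej_mem x
  have hNul : Nul L (Z j ν) := by
    by_cases hν' : ν ∈ Λ'
    · exact hZn j ν hν'
    · have h1 : Z j ν = 0 := by
        rw [hZ]
        refine Finset.sum_eq_zero fun β hβ => ?_
        have h2 : Xbj s x β ν = 0 := by
          unfold Xbj
          refine List.sum_eq_zero fun z hz => ?_
          obtain ⟨p, hp, rfl⟩ := List.mem_map.1 hz
          rw [if_neg]
          intro h
          exact hν' (h ▸ hΛm β hβ p hp)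
        rw [h2, mul_zero]
      rw [h1]
      intro t
      exact SR_zero t
  set S : Finset (List I) := Λ.filter (fun β => c j β ≠ 0 ∧ prej x β = ν) with hS
  have hSm : ∀ β : S, β.1 ∈ Λ ∧ c j β.1 ≠ 0 ∧ prej x β.1 = ν := fun β =>
    Finset.mem_filter.1 β.2
  have h5 := indWj (hL := hL) hF hs hx hLs hA (∑ β ∈ Λ, β.length)
    S (fun β => rstj x β.1) (fun β β' h => by
      apply Subtype.ext
      have h6 : rstj x β.1 = rstj x β'.1 := h
      rw [pre_rstj x β.1, pre_rstj x β'.1, (hSm β).2.2, (hSm β').2.2, h6])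
      (fun β => Lj_rstj x _) (fun β => (rstj_length x β.1).trans
        (Finset.single_le_sum (f := fun β : List I => β.length) (fun _ _ => Nat.zero_le _)
          (hSm β).1)) (fun β => c j β.1) (fun β => hcS _ _) (by
      refine (congrArg (Nul L) ?_).mp hNul
      have e1 : ∀ β ∈ Λ, c j β * Xbj s x β ν = if c j β ≠ 0 ∧ prej x β = ν then
          c j β * Xgj s x (rstj x β) else 0 := by
        intro β hβ
        by_cases hcβ : c j β = 0
        · rw [hcβ, zero_mul, if_neg]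
          intro h
          exact h.1 rfl
        · have h9 := hmax β (Finset.mem_filter.2 ⟨hβ, hcβ⟩)
          rw [Xbj_pre x s β ν h9]
          by_cases h10 : prej x β = ν
          · rw [if_pos h10, if_pos ⟨hcβ, h10⟩]
          · rw [if_neg h10, if_neg (fun h => h10 h.2), mul_zero]
      rw [hZ]
      simp only
      rw [Finset.sum_congr rfl e1, ← Finset.sum_filter]
      exact (Finset.sum_coe_sort S (fun β => c j β * Xgj s x (rstj x β))).symm)
    ⟨β4, Finset.mem_filter.2 ⟨hβ4.1, hβ4.2, rfl⟩⟩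
  exact hβ4.2 h5

end

end Pool.Agent.Y777.AL
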