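import Pool.Agent.Y777.AL.H

/-!
# Independence at the primes of powers and truncated multiple sums with arbitrary exponents
(helper777)
-/

set_option autoImplicit false

namespace Pool.Agent.Y777.AL

open Filter Topology Pool.Agent.TH932.Abs Pool.Agent.TH932.Germs Pool.Agent.TH932.Chi
open Pool.Agent.TH796.AL Pool.Agent.Y760.ZG

lemma ug_gr {J : Type} (D : ℕ → J → ℕ) (q : ℕ) (j : J) :
    rho (ug D q j) = gr fun n => ((pr q : ℝ) ^ (D n j))⁻¹ := by
  unfold ug
  rw [rho_gm]
  congr 1
  funext n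
  push_cast
  rfl

lemma rel_gr {I J : Type} [Fintype J] (s : ℕ → I → ℕ) (D : ℕ → J → ℕ) (Λ : Finset (List I))
    (c : J → List I → ℕ → ℝ) (q : ℕ) :
    ∑ j, ∑ β ∈ Λ, gr (c j β) * rho (ug D q j * Gj s β (pr q)) =
      gr fun n => ∑ j, ∑ β ∈ Λ, c j β n * (((pr q : ℝ) ^ (D n j))⁻¹ * hr (aj s n β) (pr q)) := by
  have h1 : ∀ j β, gr (c j β) * rho (ug D q j * Gj s β (pr q)) =
      gr fun n => c j β n * (((pr q : ℝ) ^ (D n j))⁻¹ * hr (aj s n β) (pr q)) := by
    intro j β
    rw [map_mul, ug_gr, rho_Gj, gr_mul, gr_mul]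
  simp only [h1]
  have h2 : ∀ j, ∑ β ∈ Λ, (gr fun n => c j β n * (((pr q : ℝ) ^ (D n j))⁻¹ *
      hr (aj s n β) (pr q))) = gr fun n => ∑ β ∈ Λ, c j β n * (((pr q : ℝ) ^ (D n j))⁻¹ *
      hr (aj s n β) (pr q)) := fun j => gr_sum Λ _
  simp only [h2]
  exact gr_sum Finset.univ _

/-- a rescaled limit -/
lemma Lim_scale {I : Type} {s : ℕ → I → ℕ} {x : I → ℝ} {L : ℕ → ℝ} (hs : Lim s x L) {ε : ℝ}
    (hε : 0 < ε) : Lim s (fun i => x i / ε) (fun n => ε * L n) := by
  intro i δ hδ
  filter_upwards [hs i (δ * ε) (by positivity)] with n hn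
  have h1 : x i / ε * (ε * L n) = x i * L n := by
    field_simp
  rw [h1]
  refine hn.trans (le_of_eq ?_)
  ring

lemma Lim_large {I : Type} {s : ℕ → I → ℕ} {x : I → ℝ} {L : ℕ → ℝ} (hL : Tendsto L atTop atTop)
    (hs : Lim s x L) (hx : ∀ i, x i = 0 ∨ 2 ≤ x i) (i : I) (hi : x i ≠ 0) :
    ∀ᶠ n in (UU : Filter ℕ), L n ≤ (s n i : ℝ) := by
  filter_upwards [hs i 1 one_pos, L_nonneg hL] with n hn h0
  have h1 := (abs_le.1 hn).1
  have h2 := (hx i).resolve_left hi
  nlinarith only [h1, h2, h0]

/-- **independence at the primes** -/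
theorem PI_all (N : ℕ) : ∀ (I J : Type) [Fintype I] [DecidableEq I] [Fintype J] [DecidableEq J]
    (s : ℕ → I → ℕ) (D : ℕ → J → ℕ), (∀ n, Function.Injective (s n)) →
    (∀ n, Function.Injective (D n)) → (∀ n i, 1 ≤ s n i) → Fintype.card J + nb s ≤ N →
    PIS s D (fun _ => True) := by
  classical
  induction N with
  | zero =>
    intro I J _ _ _ _ s D _ _ _ hN q0 Λ _ c _ j
    haveI : IsEmpty J := Fintype.card_eq_zero_iff.1 (by omega)
    exact isEmptyElim j
  | succ N ih =>
    intro I J _ _ _ _ s D0 hs hD0 hs1 hN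
    by_cases hJe : IsEmpty J
    · intro q0 Λ _ c _ j
      exact isEmptyElim j
    rw [not_isEmpty_iff] at hJe
    -- the smallest exponent is zero
    set mn : ℕ → ℕ := fun n => Finset.univ.inf' Finset.univ_nonempty (D0 n) with hmn
    have hmn1 : ∀ n j, mn n ≤ D0 n j := fun n j => Finset.inf'_le _ (Finset.mem_univ j)
    have hmn2 : ∀ n, ∃ j, D0 n j = mn n := fun n => by
      obtain ⟨j, _, hj⟩ := Finset.exists_mem_eq_inf' Finset.univ_nonempty (D0 n)
      exact ⟨j, hj.symm⟩
    set D : ℕ → J → ℕ := fun n j => D0 n j - mn n with hD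
    have hDD : ∀ n j, D0 n j = D n j + mn n := fun n j => by
      have := hmn1 n j
      rw [hD]
      simp only
      omega
    have hDi : ∀ n, Function.Injective (D n) := by
      intro n j j' h
      apply hD0 n
      rw [hDD, hDD, h]
    have hDz : ∀ n, ∃ j, D n j = 0 := fun n => by
      obtain ⟨j, hj⟩ := hmn2 n
      exact ⟨j, by rw [hD]; simp only; omega⟩
    refine PIS_shift hDD ?_
    set M : ℕ → ℕ := fun n => ∑ i, s n i + ∑ j, D n j with hM
    have hsM : ∀ n i, s n i ≤ M n := fun n i =>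
      (Finset.single_le_sum (f := s n) (fun _ _ => Nat.zero_le _) (Finset.mem_univ i)).trans
        (Nat.le_add_right _ _)
    have hDM : ∀ n j, D n j ≤ M n := fun n j =>
      (Finset.single_le_sum (f := D n) (fun _ _ => Nat.zero_le _) (Finset.mem_univ j)).trans
        (Nat.le_add_left _ _)
    by_cases hb : ∃ b, ∀ᶠ n in (UU : Filter ℕ), M n ≤ b
    · obtain ⟨b, hb⟩ := hb
      refine PIS_const hs hDi hs1 (b := b) ?_
      filter_upwards [hb] with n hn
      exact ⟨fun i => (hsM n i).trans hn, fun j => (hDM n j).trans hn⟩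
    have hMinf : ∀ b, ∀ᶠ n in (UU : Filter ℕ), b ≤ M n := by
      intro b
      have h1 : ¬ ∀ᶠ n in (UU : Filter ℕ), M n ≤ b := fun h => hb ⟨b, h⟩
      rw [← Ultrafilter.eventually_not] at h1
      filter_upwards [h1] with n hn
      omega
    intro q0 Λ _ c hc j0 β0 hβ0
    by_contra hne
    -- representatives
    choose cr hcr using fun j β => gr_surj (c j β)
    have hrel : ∀ q, q0 ≤ q → ∀ᶠ n in (UU : Filter ℕ), ∑ j, ∑ β ∈ Λ,
        cr j β n * (((pr q : ℝ) ^ (D n j))⁻¹ * hr (aj s n β) (pr q)) = 0 := by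
      intro q hq
      have h1 := hc q hq
      simp only [← hcr] at h1
      rw [rel_gr, ← gr_zero, gr_eq] at h1
      exact h1
    have hne' : ∀ᶠ n in (UU : Filter ℕ), cr j0 β0 n ≠ 0 := by
      rw [← hcr j0 β0] at hne
      exact gr_ne_zero.1 hne
    have hbd : ∀ i, ∃ b : ℕ, ¬ unb s i → ∀ᶠ n in (UU : Filter ℕ), s n i = b := by
      intro i
      by_cases h : unb s i
      · exact ⟨0, fun h' => absurd h h'⟩
      · unfold unb at h
        rw [not_not] at h
        obtain ⟨b, hb⟩ := h
        exact ⟨b, fun _ => hb⟩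
    choose bd hbd using hbd
    have hchoice : ∀ k : ℕ, ∃ n : ℕ, (∀ q, q0 ≤ q → q ≤ k → ∑ j, ∑ β ∈ Λ,
        cr j β n * (((pr q : ℝ) ^ (D n j))⁻¹ * hr (aj s n β) (pr q)) = 0) ∧ k ≤ M n ∧
        cr j0 β0 n ≠ 0 ∧ ∀ i, ¬ unb s i → s n i = bd i := by
      intro k
      have h1 : ∀ᶠ n in (UU : Filter ℕ), ∀ q ∈ Finset.Icc q0 k, ∑ j, ∑ β ∈ Λ,
          cr j β n * (((pr q : ℝ) ^ (D n j))⁻¹ * hr (aj s n β) (pr q)) = 0 := by
        rw [Filter.eventually_all_finset]
        intro q hq
        exact hrel q (Finset.mem_Icc.1 hq).1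
      have h2 : ∀ᶠ n in (UU : Filter ℕ), ∀ i, ¬ unb s i → s n i = bd i := by
        rw [Filter.eventually_all]
        intro i
        by_cases h : unb s i
        · exact Eventually.of_forall fun n h' => absurd h h'
        · filter_upwards [hbd i h] with n hn _
          exact hn
      obtain ⟨n, h3, h4, h5, h6⟩ := (h1.and ((hMinf k).and (hne'.and h2))).exists
      exact ⟨n, fun q hq hqk => h3 q (Finset.mem_Icc.2 ⟨hq, hqk⟩), h4, h5, h6⟩
    choose n hn1 hn2 hn3 hn4 using hchoice
    -- the new sequences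
    set s' : ℕ → I → ℕ := fun k i => s (n k) i with hs'
    set D' : ℕ → J → ℕ := fun k j => D (n k) j with hD'
    set c' : J → List I → HR := fun j β => gr fun k => cr j β (n k) with hc'
    have hne2 : c' j0 β0 ≠ 0 := by
      rw [hc']
      exact gr_ne_zero.2 (Eventually.of_forall fun k => hn3 k)
    have hrel' : ∀ q, q0 ≤ q → ∑ j, ∑ β ∈ Λ, c' j β * rho (ug D' q j * Gj s' β (pr q)) = 0 := by
      intro q hq
      rw [hc', rel_gr s' D' Λ (fun j β k => cr j β (n k)) q, ← gr_zero, gr_eq]
      filter_upwards [ev_of_atTop (eventually_ge_atTop q)] with k hk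
      exact hn1 k q hq hk
    have hnb : nb s' ≤ nb s := by
      unfold nb
      refine Finset.card_le_card fun i hi => ?_
      rw [Finset.mem_filter] at hi ⊢
      refine ⟨hi.1, ?_⟩
      by_contra h
      exact hi.2 ⟨bd i, Eventually.of_forall fun k => hn4 k i h⟩
    have hs'i : ∀ k, Function.Injective (s' k) := fun k => hs (n k)
    have hD'i : ∀ k, Function.Injective (D' k) := fun k => hDi (n k)
    have hs'1 : ∀ k i, 1 ≤ s' k i := fun k i => hs1 (n k) i
    have hL0 : Tendsto (fun k => (M (n k) : ℝ)) atTop atTop :=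
      tendsto_natCast_atTop_atTop.comp (tendsto_atTop_mono hn2 tendsto_id)
    obtain ⟨x0, hx0, hsl⟩ := lim_exists (M := fun k => M (n k)) hn2 (s := s')
      (fun k i => hsM (n k) i)
    obtain ⟨d0, hd0, hDl⟩ := lim_exists (M := fun k => M (n k)) hn2 (s := D')
      (fun k j => hDM (n k) j)
    have hF : FiniteDimensional ℚ (⊥ : IntermediateField ℚ ℝ) := inferInstance
    have hJcard : 1 ≤ Fintype.card J := Fintype.card_pos
    by_cases hcl : ∃ j1, d0 j1 ≠ d0 j0
    · -- several classes
      obtain ⟨j1, hj1⟩ := hcl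
      obtain ⟨c2, h1, h2, h3⟩ := to_SF (hL := hL0) (F := ⊥) hsl hDl hrel' hβ0 hne2
      obtain ⟨q1, hq1⟩ := step_cls hF hsl hDl h2 h3
      have hcard : Fintype.card {j // d0 j = d0 j0} < Fintype.card J :=
        Fintype.card_subtype_lt (x := j1) hj1
      have h4 := ih I {j // d0 j = d0 j0} s' (fun k (j : {j // d0 j = d0 j0}) => D' k j.1) hs'i
        (fun k a b hab => Subtype.ext (hD'i k hab)) hs'1 (by omega) q1 Λ
        (fun _ _ _ _ => trivial) (fun j β => c2 j.1 β) (fun q hq => hq1 q hq (d0 j0))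
        ⟨j0, rfl⟩ β0 hβ0
      exact h1 h4
    · -- one class
      push Not at hcl
      have hd00 : d0 j0 = 0 := by
        choose jz hjz using fun k => hDz (n k)
        obtain ⟨ja, hja⟩ := ult_fin jz
        rw [← hcl ja]
        by_contra h
        refine Lim_unb hL0 hDl h ⟨0, ?_⟩
        filter_upwards [hja] with k hk
        rw [hD']
        simp only
        rw [← hk]
        exact hjz k
      have hDl0 : Lim D' (fun _ => 0) (fun k => (M (n k) : ℝ)) := by
        intro j ε hε
        have h1 := hDl j ε hε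
        rwa [hcl j, hd00] at h1
      obtain ⟨i1, hi1⟩ : ∃ i, x0 i ≠ 0 := by
        by_contra hcon
        push Not at hcon
        set ε : ℝ := 1 / (2 * ((Fintype.card I : ℝ) + Fintype.card J + 1)) with hε
        have hε0 : 0 < ε := by positivity
        have h1 : ∀ᶠ k in (UU : Filter ℕ), ∀ i, (s' k i : ℝ) ≤ ε * M (n k) := by
          rw [Filter.eventually_all]
          intro i
          filter_upwards [hsl i ε hε0] with k hk
          rw [hcon i, zero_mul, sub_zero, Nat.abs_cast] at hk
          exact hk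
        have h2 : ∀ᶠ k in (UU : Filter ℕ), ∀ j, (D' k j : ℝ) ≤ ε * M (n k) := by
          rw [Filter.eventually_all]
          intro j
          filter_upwards [hDl0 j ε hε0] with k hk
          rw [zero_mul, sub_zero, Nat.abs_cast] at hk
          exact hk
        obtain ⟨k, h3, h4, h5⟩ := (h1.and (h2.and (ev_of_atTop (eventually_ge_atTop 1)))).exists
        have h6 : (M (n k) : ℝ) = ∑ i, (s' k i : ℝ) + ∑ j, (D' k j : ℝ) := by
          rw [hM]
          push_cast
          rfl
        have h7 : ∑ i, (s' k i : ℝ) ≤ Fintype.card I * (ε * M (n k)) := by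
          calc ∑ i, (s' k i : ℝ) ≤ ∑ _i : I, ε * M (n k) := Finset.sum_le_sum fun i _ => h3 i
            _ = _ := by rw [Finset.sum_const, nsmul_eq_mul, Finset.card_univ]
        have h8 : ∑ j, (D' k j : ℝ) ≤ Fintype.card J * (ε * M (n k)) := by
          calc ∑ j, (D' k j : ℝ) ≤ ∑ _j : J, ε * M (n k) := Finset.sum_le_sum fun j _ => h4 j
            _ = _ := by rw [Finset.sum_const, nsmul_eq_mul, Finset.card_univ]
        have h9 : (1 : ℝ) ≤ M (n k) := by exact_mod_cast h5.trans (hn2 k)
        have h10 : ((Fintype.card I : ℝ) + Fintype.card J) * ε ≤ 1 / 2 := by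
          rw [hε, mul_one_div, div_le_div_iff₀ (by positivity) (by norm_num)]
          linarith only []
        have h11 : (M (n k) : ℝ) ≤ ((Fintype.card I : ℝ) + Fintype.card J) * ε * M (n k) := by
          nlinarith only [h6, h7, h8]
        nlinarith only [h9, h10, h11]
      obtain ⟨i2, hi2, hmin⟩ := Finset.exists_min_image
        (Finset.univ.filter fun i => x0 i ≠ 0) x0
        ⟨i1, Finset.mem_filter.2 ⟨Finset.mem_univ _, hi1⟩⟩
      have hi2' : 0 < x0 i2 := lt_of_le_of_ne (hx0 i2) (Ne.symm (Finset.mem_filter.1 hi2).2)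
      set ε : ℝ := x0 i2 / 2 with hε
      have hε0 : 0 < ε := by positivity
      set x : I → ℝ := fun i => x0 i / ε with hx
      have hxx : ∀ i, x i = 0 ∨ 2 ≤ x i := by
        intro i
        by_cases h : x0 i = 0
        · left
          rw [hx]
          simp only
          rw [h, zero_div]
        · right
          rw [hx]
          simp only
          rw [le_div_iff₀ hε0, hε]
          have := hmin i (Finset.mem_filter.2 ⟨Finset.mem_univ _, h⟩)
          linarith only [this]
      have hLt : Tendsto (fun k => ε * (M (n k) : ℝ)) atTop atTop :=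
        hL0.const_mul_atTop hε0
      have hsx : Lim s' x (fun k => ε * (M (n k) : ℝ)) := Lim_scale hsl hε0
      have hDx : Lim D' (fun _ => 0) (fun k => ε * (M (n k) : ℝ)) := by
        have := Lim_scale hDl0 hε0
        simpa only [zero_div] using this
      obtain ⟨c2, h1, h2, h3⟩ := to_SF (hL := hLt) (F := ⊥) hsx hDx hrel' hβ0 hne2
      have hxu : ∀ i, x i ≠ 0 → unb s' i := fun i hi => Lim_unb hLt hsx hi
      have hxi1 : x i1 ≠ 0 := div_ne_zero hi1 hε0.ne'
      have h4 := step_one hF hsx hDx hxx (Lim_large hLt hsx hxx)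
        (PIS_sub (ih {i // x i = 0} J _ D' (fun k a b hab => Subtype.ext (hs'i k hab)) hD'i
          (fun k i => hs'1 k i.1) (by
            have := nb_sub_lt s' (fun i => x i = 0) (hxu i1 hxi1) hxi1
            omega)))
        (fun y hy => PIS_sub (ih {i // x i = 0} {i // x i = y} _ _
          (fun k a b hab => Subtype.ext (hs'i k hab))
          (fun k a b hab => Subtype.ext (hs'i k hab)) (fun k i => hs'1 k i.1) (by
            have := nb_card s' x hxu (y := y) (by
              intro h
              rw [h] at hy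
              norm_num at hy)
            omega))) h2 h3 j0 β0 hβ0
      exact h1 h4

/-- **independence at the primes**, for letters in a set -/
theorem PIS_all {I J : Type} [Fintype I] [DecidableEq I] [Fintype J] [DecidableEq J]
    {s : ℕ → I → ℕ} {D : ℕ → J → ℕ} (hs : ∀ n, Function.Injective (s n))
    (hD : ∀ n, Function.Injective (D n)) (hs1 : ∀ n i, 1 ≤ s n i) (A : I → Prop) :
    PIS s D A := by
  intro q0 Λ _ c hc
  exact PI_all _ I J s D hs hD hs1 le_rfl q0 Λ (fun _ _ _ _ => trivial) c hc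

end Pool.Agent.Y777.AL
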