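import Pool.Agent.Y777.AL.K

/-!
# Multiple zeta values with a large first argument: relations of all exponential heights, the
other arguments are arbitrary (helper777, after `Pool.Agent.Y760.ZG.FinD`)
-/

set_option autoImplicit false

namespace Pool.Agent.Y777.AL

open Filter Topology Pool.Agent.TH932.Abs Pool.Agent.TH932.Germs Pool.Agent.TH932.Chi
open Pool.Agent.TH796.AL Pool.Agent.Y760.ZG Pool.Agent.TH883.Zg

lemma scale_exists {I : Type} [Fintype I] {x0 : I → ℝ} (hx0 : ∀ i, 0 ≤ x0 i) :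
    ∃ ε : ℝ, 0 < ε ∧ ∀ i, x0 i / ε = 0 ∨ 2 ≤ x0 i / ε := by
  classical
  by_cases h : ∃ i, x0 i ≠ 0
  · obtain ⟨i1, hi1⟩ := h
    obtain ⟨i2, hi2, hmin⟩ := Finset.exists_min_image
      (Finset.univ.filter fun i => x0 i ≠ 0) x0
      ⟨i1, Finset.mem_filter.2 ⟨Finset.mem_univ _, hi1⟩⟩
    have hi2' : 0 < x0 i2 := lt_of_le_of_ne (hx0 i2) (Ne.symm (Finset.mem_filter.1 hi2).2)
    refine ⟨x0 i2 / 2, by positivity, fun i => ?_⟩
    by_cases h : x0 i = 0
    · left
      rw [h, zero_div]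
    · right
      rw [le_div_iff₀ (by positivity)]
      have := hmin i (Finset.mem_filter.2 ⟨Finset.mem_univ _, h⟩)
      linarith only [this]
  · push Not at h
    exact ⟨1, one_pos, fun i => Or.inl (by rw [h i, zero_div])⟩

/-- **patterns** -/
theorem mainPa {l g : ℕ} (β : Fin l → ℝ) (hβ : ∀ j, IsAlgebraic ℚ (β j))
    (hli : LinearIndependent ℚ β) (Λ : Finset (List (Fin g))) (κ C : ℝ) :
    ∃ B : ℝ, 1 < B ∧ ∃ n0 : ℕ, ∀ n : ℕ, n0 ≤ n → ∀ s : Fin g → ℕ, Function.Injective s →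
      (∀ i, 1 ≤ s i ∧ (s i : ℝ) ≤ κ * n) → (∀ w ∈ Λ, ∀ i ∈ w.head?, n ≤ s i) →
      ∀ a : Λ → Fin l → ℤ, a ≠ 0 → (∀ w j, |(a w j : ℝ)| ≤ C ^ n) →
      (B ^ n)⁻¹ < |∑ w : Λ, ∑ j, (β j * a w j) * mz (w.1.map s)| := by
  classical
  by_contra hcon
  push Not at hcon
  have h1 : ∀ t : ℕ, ∃ n : ℕ, t ≤ n ∧ ∃ s : Fin g → ℕ, Function.Injective s ∧
      (∀ i, 1 ≤ s i ∧ (s i : ℝ) ≤ κ * n) ∧ (∀ w ∈ Λ, ∀ i ∈ w.head?, n ≤ s i) ∧
      ∃ a : Λ → Fin l → ℤ, a ≠ 0 ∧ (∀ w j, |(a w j : ℝ)| ≤ C ^ n) ∧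
      |∑ w : Λ, ∑ j, (β j * a w j) * mz (w.1.map s)| ≤ (((t : ℝ) + 2) ^ n)⁻¹ :=
    fun t => hcon ((t : ℝ) + 2) (by
      have : (0 : ℝ) ≤ t := Nat.cast_nonneg t
      linarith only [this]) t
  choose n hn s hinj hs hhead a0 ha0 hC hsmall using h1
  -- the scale
  set Q : ℕ := ⌈κ⌉₊ + 1 with hQ
  set M : ℕ → ℕ := fun t => Q * n t with hM
  have hMn : ∀ t, t ≤ M t := fun t => (hn t).trans (Nat.le_mul_of_pos_left _ (by omega))
  have hsM : ∀ t i, s t i ≤ M t := by
    intro t i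
    have h2 : (s t i : ℝ) ≤ ((Q * n t : ℕ) : ℝ) := by
      refine (hs t i).2.trans ?_
      push_cast
      refine mul_le_mul_of_nonneg_right ?_ (Nat.cast_nonneg _)
      have h3 := Nat.le_ceil κ
      rw [hQ]
      push_cast
      linarith only [h3]
    exact_mod_cast h2
  obtain ⟨x0, hx0, hlim0⟩ := lim_exists hMn hsM
  obtain ⟨ε, hε, hxx⟩ := scale_exists hx0
  set x : Fin g → ℝ := fun i => x0 i / ε with hx
  have hL0 : Tendsto (fun t => (M t : ℝ)) atTop atTop :=
    tendsto_natCast_atTop_atTop.comp (tendsto_atTop_mono hMn tendsto_id)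
  set L : ℕ → ℝ := fun t => ε * (M t : ℝ) with hLdef
  have hL : Tendsto L atTop atTop := hL0.const_mul_atTop hε
  have hlim : Lim s x L := Lim_scale hlim0 hε
  have hLs := Lim_large hL hlim hxx
  have hQ0 : (0 : ℝ) < Q := by
    rw [hQ]
    positivity
  -- the heads are large
  have hLj : ∀ w ∈ Λ, Lj x w := by
    intro w hw
    cases w with
    | nil => exact Or.inl rfl
    | cons i u =>
      right
      refine ⟨i, u, rfl, ?_⟩
      intro hxi
      have h2 := hlim i (1 / (2 * ε * Q)) (by positivity)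
      have h3 : ∀ᶠ t : ℕ in (UU : Filter ℕ), 1 ≤ n t :=
        ev_of_atTop (by
          filter_upwards [eventually_ge_atTop 1] with t ht
          exact ht.trans (hn t))
      obtain ⟨t, h4, h5⟩ := (h2.and h3).exists
      rw [hxi, zero_mul, sub_zero, Nat.abs_cast] at h4
      have h6 : (n t : ℝ) ≤ s t i := by exact_mod_cast hhead t _ hw i (by simp)
      have h7 : 1 / (2 * ε * Q) * L t = (n t : ℝ) / 2 := by
        rw [hLdef, hM]
        push_cast
        field_simp
      rw [h7] at h4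
      have h8 : (1 : ℝ) ≤ n t := by exact_mod_cast h5
      linarith only [h4, h6, h8]
  -- the number field
  set F : IntermediateField ℚ ℝ := IntermediateField.adjoin ℚ (Set.range β) with hFdef
  have hF : FiniteDimensional ℚ F :=
    IntermediateField.finiteDimensional_adjoin fun x hx => by
      obtain ⟨j, rfl⟩ := hx
      exact (hβ j).isIntegral
  have hβF : ∀ j, β j ∈ F := fun j => IntermediateField.subset_adjoin ℚ _ ⟨j, rfl⟩
  have hβS : ∀ j, algebraMap ℝ HR (β j) ∈ SF hL F := fun j =>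
    SF_of_NQ (q := 0) (m := 0) (NQ.coe ⟨_, cst_mem_KA hL F ⟨β j, hβF j⟩⟩)
  set y : Λ × Fin l → HR := fun p => algebraMap ℝ HR (β p.2) * Xgj s x p.1.1 with hy
  set a : Λ × Fin l → GG := fun p => gm fun t => (a0 t p.1 p.2 : ℚ) with ha
  have hIG : ∀ p, IG L (Real.log (|C| + 1) / (ε * Q)) (a p) := by
    intro p
    refine ⟨fun t => a0 t p.1 p.2, rfl, Eventually.of_forall fun t => ?_⟩
    refine (hC t p.1 p.2).trans ?_
    have h2 : 0 ≤ |C| := abs_nonneg C
    have h3 : Real.log (|C| + 1) / (ε * Q) * L t = n t * Real.log (|C| + 1) := by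
      rw [hLdef, hM]
      push_cast
      field_simp
    rw [h3, Real.exp_nat_mul, Real.exp_log (by linarith only [h2])]
    refine (le_abs_self _).trans ?_
    rw [abs_pow]
    exact pow_le_pow_left₀ h2 (by linarith only []) _
  have hnul : Nul L (∑ p, rho (a p) * y p) := by
    have e1 : ∑ p, rho (a p) * y p = gr fun t =>
        ∑ w : Λ, ∑ j, (β j * a0 t w j) * mz (w.1.map (s t)) := by
      have e2 : ∀ p, rho (a p) * y p = gr fun t =>
          (β p.2 * a0 t p.1 p.2) * mz (p.1.1.map (s t)) := by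
        intro p
        rw [ha, hy]
        simp only
        unfold Xgj
        rw [rho_gm, cst_eq, gr_mul, gr_mul]
        congr 1
        funext t
        rw [Xj_mz s x t (hLj p.1.1 p.1.2)]
        unfold aj
        push_cast
        ring
      rw [Finset.sum_congr rfl fun p _ => e2 p, gr_sum]
      congr 1
      funext t
      rw [Fintype.sum_prod_type]
    rw [e1]
    intro T
    rw [mem_SR]
    intro δ hδ
    have h2 : ∀ᶠ t : ℕ in (UU : Filter ℕ), Real.exp (ε * Q * T) ≤ (t : ℝ) :=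
      ev_of_atTop (tendsto_natCast_atTop_atTop.eventually_ge_atTop _)
    filter_upwards [h2, L_nonneg hL] with t h3 h0
    refine (hsmall t).trans ?_
    have h6 : Real.exp (T * L t) ≤ ((t : ℝ) + 2) ^ (n t) := by
      have h7 : T * L t = n t * (ε * Q * T) := by
        rw [hLdef, hM]
        push_cast
        ring
      rw [h7, Real.exp_nat_mul]
      exact pow_le_pow_left₀ (Real.exp_pos _).le (by linarith only [h3]) _
    calc (((t : ℝ) + 2) ^ (n t))⁻¹ ≤ (Real.exp (T * L t))⁻¹ :=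
          inv_anti₀ (Real.exp_pos _) h6
      _ = Real.exp (-(T * L t)) := (Real.exp_neg _).symm
      _ ≤ Real.exp (-(T - δ) * L t) := by
          apply Real.exp_le_exp.2
          nlinarith only [h0, hδ]
  have hmain := gen hF (Fintype.card (Λ × Fin l)) (Λ × Fin l) rfl y
    (fun p => (DD.of_SF (hβS p.2)).mul (DD_Xgj hL hLs hlim (hLj p.1.1 p.1.2))) ?_ _ a hIG hnul
  · have h2 : ∀ᶠ t in (UU : Filter ℕ), ∀ p : Λ × Fin l, (a0 t p.1 p.2 : ℚ) = 0 := by
      rw [Filter.eventually_all]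
      intro p
      have h3 := hmain p
      simp only [ha] at h3
      rw [← gm_zero, gm_eq] at h3
      exact h3
    obtain ⟨t, ht⟩ := h2.exists
    apply ha0 t
    funext w j
    exact_mod_cast ht (w, j)
  · intro p hp hpn
    have h2 : Nul L (∑ w : Λ, (∑ j, algebraMap ℝ HR (β j) * rho (p (w, j))) * Xgj s x w.1) := by
      have e1 : ∑ q, rho (p q) * y q =
          ∑ w : Λ, (∑ j, algebraMap ℝ HR (β j) * rho (p (w, j))) * Xgj s x w.1 := by
        rw [Fintype.sum_prod_type]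
        refine Finset.sum_congr rfl fun e _ => ?_
        rw [Finset.sum_mul]
        refine Finset.sum_congr rfl fun j _ => ?_
        simp only [hy]
        ring
      rw [← e1]
      exact hpn
    have h3 := indWj (hL := hL) hF hlim hxx hLs
      (fun y _ => PIS_all hinj (fun t a b hab => Subtype.ext (hinj t hab))
        (fun t i => (hs t i).1) _) (∑ w : Λ, w.1.length) Λ (fun w => w.1)
      Subtype.val_injective (fun w => hLj w.1 w.2)
      (fun w => Finset.single_le_sum (f := fun w : Λ => w.1.length) (fun _ _ => Nat.zero_le _)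
        (Finset.mem_univ w))
      (fun w => ∑ j, algebraMap ℝ HR (β j) * rho (p (w, j))) (fun w =>
        (SF hL F).sum_mem fun j _ => (SF hL F).mul_mem (hβS j) (hp _)) h2
    rintro ⟨w, j⟩
    exact disj_thm (Fin l) inferInstance β hli (fun j => p (w, j)) (h3 w) j

/-- the words with at most `r` letters -/
lemma words_exist (r g : ℕ) : ∃ Λ : Finset (List (Fin g)), ∀ w, w.length ≤ r → w ∈ Λ := by
  have h1 : ({l : List (Fin g) | l.length ≤ r}).Finite := List.finite_length_le _ r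
  exact ⟨h1.toFinset, fun w hw => by rw [Set.Finite.mem_toFinset]; exact hw⟩

/-- the arguments are at least one and at most `κ n`, the first one is at least `n` -/
def Adj (n : ℕ) (κ : ℝ) (w : List ℕ) : Prop :=
  (∀ m ∈ w, 1 ≤ m ∧ (m : ℝ) ≤ κ * n) ∧ ∀ k ∈ w.head?, n ≤ k

/-- **bounded numbers of multiple zeta values** -/
theorem mainWa {l : ℕ} (β : Fin l → ℝ) (hβ : ∀ j, IsAlgebraic ℚ (β j))
    (hli : LinearIndependent ℚ β) (N r : ℕ) (κ C : ℝ) :
    ∃ B : ℝ, 1 < B ∧ ∃ n0 : ℕ, ∀ n : ℕ, n0 ≤ n → ∀ W : Finset (List ℕ), W.card ≤ N →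
      (∀ w ∈ W, w.length ≤ r ∧ Adj n κ w) → ∀ a : List ℕ → Fin l → ℤ,
      (∃ w ∈ W, ∃ j, a w j ≠ 0) → (∀ w ∈ W, ∀ j, |(a w j : ℝ)| ≤ C ^ n) →
      (B ^ n)⁻¹ < |∑ w ∈ W, ∑ j, (β j * a w j) * mz w| := by
  classical
  choose Ω hΩ using fun g => words_exist r g
  choose B hB n0 hmain using fun (g : ℕ) (Λ : Finset (List (Fin g))) =>
    mainPa (g := g) β hβ hli Λ κ C
  refine ⟨∑ g ∈ Finset.range (N * r + 1), ∑ Λ ∈ (Ω g).powerset, B g Λ, ?_,
    ∑ g ∈ Finset.range (N * r + 1), ∑ Λ ∈ (Ω g).powerset, n0 g Λ, ?_⟩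
  · refine (hB 0 ∅).trans_le ?_
    refine (Finset.single_le_sum (s := (Ω 0).powerset) (f := fun Λ => B 0 Λ)
      (fun Λ _ => by linarith only [hB 0 Λ]) (Finset.empty_mem_powerset _)).trans ?_
    exact Finset.single_le_sum (f := fun g => ∑ Λ ∈ (Ω g).powerset, B g Λ)
      (fun g _ => Finset.sum_nonneg fun Λ _ => by linarith only [hB g Λ])
      (Finset.mem_range.2 (by omega))
  intro n hn W hWN hW a ha hC
  set LL : Finset ℕ := W.biUnion fun w => w.toFinset with hLL
  have hcard : LL.card ≤ N * r := by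
    calc LL.card ≤ ∑ w ∈ W, w.toFinset.card := Finset.card_biUnion_le
      _ ≤ ∑ _w ∈ W, r := Finset.sum_le_sum fun w hw =>
          (List.toFinset_card_le w).trans (hW w hw).1
      _ = W.card * r := by rw [Finset.sum_const, smul_eq_mul]
      _ ≤ N * r := Nat.mul_le_mul_right _ hWN
  set g : ℕ := LL.card with hg
  set s : Fin g ↪o ℕ := LL.orderEmbOfFin rfl with hs
  have hsLL : ∀ i, s i ∈ LL := fun i => LL.orderEmbOfFin_mem rfl i
  have hsurj : ∀ m ∈ LL, ∃ i, s i = m := by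
    intro m hm
    have h1 := LL.range_orderEmbOfFin rfl
    have h2 : m ∈ Set.range (LL.orderEmbOfFin rfl) := by
      rw [h1]
      exact hm
    exact h2
  have hgr : g ∈ Finset.range (N * r + 1) := Finset.mem_range.2 (by omega)
  -- coding
  have hcode : ∀ w ∈ W, ∃ w' : List (Fin g), w'.map s = w := by
    intro w hw
    have h1 : ∀ m ∈ w, ∃ i, s i = m := fun m hm =>
      hsurj m (Finset.mem_biUnion.2 ⟨w, hw, List.mem_toFinset.2 hm⟩)
    clear hw
    induction w with
    | nil => exact ⟨[], rfl⟩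
    | cons m u ih =>
      obtain ⟨i, hi⟩ := h1 m List.mem_cons_self
      obtain ⟨u', hu'⟩ := ih fun m' hm' => h1 m' (List.mem_cons_of_mem _ hm')
      exact ⟨i :: u', by rw [List.map_cons, hi, hu']⟩
  choose! enc henc using hcode
  set Λ : Finset (List (Fin g)) := W.image enc with hΛ
  have hencinj : Set.InjOn enc W := by
    intro w hw w' hw' h
    rw [← henc w hw, ← henc w' hw', h]
  have hΛΩ : Λ ⊆ Ω g := by
    intro w' hw'
    obtain ⟨w, hw, rfl⟩ := Finset.mem_image.1 hw'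
    refine hΩ g _ ?_
    have h1 := congrArg List.length (henc w hw)
    rw [List.length_map] at h1
    rw [h1]
    exact (hW w hw).1
  have hΛP : Λ ∈ (Ω g).powerset := Finset.mem_powerset.2 hΛΩ
  have hn0 : n0 g Λ ≤ n := by
    have h1 : n0 g Λ ≤ ∑ Λ ∈ (Ω g).powerset, n0 g Λ :=
      Finset.single_le_sum (f := fun Λ => n0 g Λ) (fun _ _ => Nat.zero_le _) hΛP
    have h2 : ∑ Λ ∈ (Ω g).powerset, n0 g Λ ≤
        ∑ g ∈ Finset.range (N * r + 1), ∑ Λ ∈ (Ω g).powerset, n0 g Λ :=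
      Finset.single_le_sum (f := fun g => ∑ Λ ∈ (Ω g).powerset, n0 g Λ)
        (fun _ _ => Nat.zero_le _) hgr
    omega
  obtain ⟨w1, hw1, j1, hj1⟩ := ha
  have h1 := hmain g Λ n hn0 s s.injective (fun i => by
      have h2 := hsLL i
      rw [hLL, Finset.mem_biUnion] at h2
      obtain ⟨w, hw, h3⟩ := h2
      exact (hW w hw).2.1 _ (List.mem_toFinset.1 h3)) (by
      intro w' hw' i hi
      obtain ⟨w, hw, rfl⟩ := Finset.mem_image.1 hw'
      refine (hW w hw).2.2 (s i) ?_
      rw [← henc w hw, List.head?_map, Option.mem_def, Option.mem_def.1 hi]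
      rfl) (fun w' j => a (w'.1.map s) j) (by
      intro h2
      apply hj1
      have h3 := congrFun (congrFun h2 ⟨enc w1, Finset.mem_image_of_mem _ hw1⟩) j1
      simp only [Pi.zero_apply] at h3
      rwa [henc w1 hw1] at h3) (fun w' j => by
      obtain ⟨w, hw, h2⟩ := Finset.mem_image.1 w'.2
      rw [← h2, henc w hw]
      exact hC w hw j)
  have h2 : ∑ w' : Λ, ∑ j, (β j * a (w'.1.map s) j) * mz (w'.1.map s) =
      ∑ w ∈ W, ∑ j, (β j * a w j) * mz w := by
    rw [Finset.sum_coe_sort Λ (fun w' => ∑ j, (β j * a (w'.map s) j) * mz (w'.map s)), hΛ,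
      Finset.sum_image fun w hw w' hw' h => hencinj hw hw' h]
    refine Finset.sum_congr rfl fun w hw => ?_
    rw [henc w hw]
  rw [h2] at h1
  refine lt_of_le_of_lt ?_ h1
  have hBg : B g Λ ≤ ∑ g ∈ Finset.range (N * r + 1), ∑ Λ ∈ (Ω g).powerset, B g Λ :=
    (Finset.single_le_sum (f := fun Λ => B g Λ) (fun Λ _ => by linarith only [hB g Λ])
      hΛP).trans (Finset.single_le_sum (f := fun g => ∑ Λ ∈ (Ω g).powerset, B g Λ)
      (fun g _ => Finset.sum_nonneg fun Λ _ => by linarith only [hB g Λ]) hgr)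
  have hBg0 : 0 < B g Λ := by linarith only [hB g Λ]
  gcongr

end Pool.Agent.Y777.AL
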